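import Pool.Agent.Work.MP_7453a1_nt_two.Final

set_option autoImplicit false

/-!
The case `m = 1`, `n = 2` in the notation for general `m, n`.
-/

namespace Pool.Agent.Work.MP_7453a1_nt_two

open Pool.Agent.Work.MP_7453a1_nt_norm (IsNorm IsBestDenominator Pt)
open Pool.Agent.Work.MP_7453a1_nt_sym (IsFrame2)
open Filter Topology
open scoped ENNReal

variable {N : Seminorm ℝ V} {N₁ : Seminorm ℝ (Fin 1 → ℝ)} {Θ : Matrix (Fin 2) (Fin 1) ℝ}

/-- The vector of a `2 × 1` matrix. -/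
def col (Θ : Matrix (Fin 2) (Fin 1) ℝ) : V := fun i => Θ i 0

lemma fin1_ext {α : Type} {a b : Fin 1 → α} (h : a 0 = b 0) : a = b := by
  ext i
  rw [Subsingleton.elim i 0]
  exact h

lemma len1 (x : Fin 1 → ℤ) : len N₁ x = |(x 0 : ℝ)| * N₁ (fun _ => 1) := by
  have e : (fun j => (x j : ℝ) : Fin 1 → ℝ) = (x 0 : ℝ) • (fun _ => (1 : ℝ)) := by
    apply fin1_ext; simp
  unfold len
  rw [e, map_smul_eq_mul, Real.norm_eq_abs]

lemma err1 (x : Fin 1 → ℤ) (y : Fin 2 → ℤ) :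
    err N Θ x y = Pool.Agent.Work.MP_7453a1_nt_norm.err N (col Θ) (x 0) y := by
  unfold err Pool.Agent.Work.MP_7453a1_nt_norm.err
  congr 1
  ext i
  rw [Fin.sum_univ_one, mul_comm]
  rfl

lemma adm12 : Admissible Θ ↔ Pool.Agent.Work.MP_7453a1_nt_norm.Admissible (col Θ) := by
  constructor
  · intro h q hq p
    obtain ⟨i, hi⟩ := h (fun _ => q) (fun h0 => hq (congrFun h0 0)) p
    refine ⟨i, ?_⟩
    rw [Fin.sum_univ_one, mul_comm] at hi
    exact hi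
  · intro h x hx y
    obtain ⟨i, hi⟩ := h (x 0) (fun h0 => hx (fin1_ext h0)) y
    refine ⟨i, ?_⟩
    rw [Fin.sum_univ_one, mul_comm]
    exact hi

lemma isBest12 (hN₁ : IsNorm N₁) (x : Fin 1 → ℤ) (y : Fin 2 → ℤ) : IsBest N₁ N Θ x y ↔
    Pool.Agent.Work.MP_7453a1_nt_norm.IsBest N (col Θ) (x 0) y := by
  have hk := N1_pos hN₁
  unfold IsBest Pool.Agent.Work.MP_7453a1_nt_norm.IsBest
  refine and_congr ⟨fun h h0 => h (fin1_ext h0), fun h h0 => h (congrFun h0 0)⟩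
    ⟨fun h q' p' h1 h2 => ?_, fun h x' y' h1 h2 => ?_⟩
  · rcases h (fun _ => q') p' (by
      rw [len1, len1]
      refine mul_le_mul_of_nonneg_right ?_ hk.le
      exact_mod_cast h1) (by rw [err1, err1]; exact h2) with ⟨a, b⟩ | ⟨a, b⟩ | ⟨a, b⟩
    · left; exact ⟨congrFun a 0, b⟩
    · right; left; exact ⟨congrFun a 0, b⟩
    · right; right; exact ⟨congrFun a 0, b⟩
  · rw [len1, len1] at h1
    have h3 := le_of_mul_le_mul_right h1 hk
    rw [err1, err1] at h2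
    rcases h (x' 0) y' (by exact_mod_cast h3) h2 with ⟨a, b⟩ | ⟨a, b⟩ | ⟨a, b⟩
    · left; exact ⟨fin1_ext a, b⟩
    · right; left; exact ⟨fin1_ext a, b⟩
    · right; right; exact ⟨fin1_ext a, b⟩

lemma lengths12 (hN₁ : IsNorm N₁) (r : ℝ) : r ∈ Lengths N₁ N Θ ↔
    ∃ k : ℕ, IsBestDenominator N (col Θ) k ∧ (k : ℝ) * N₁ (fun _ => 1) = r := by
  constructor
  · rintro ⟨x, y, h, rfl⟩
    rw [isBest12 hN₁] at h
    refine ⟨(x 0).natAbs, ⟨x 0, y, h, rfl⟩, ?_⟩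
    rw [len1, Nat.cast_natAbs, Int.cast_abs]
  · rintro ⟨k, ⟨q, p, h, hk⟩, rfl⟩
    refine ⟨fun _ => q, p, (isBest12 hN₁ _ _).mpr h, ?_⟩
    rw [len1, ← hk, Nat.cast_natAbs, Int.cast_abs]

/-- The two sequences agree up to scaling. -/
theorem M12 (hN : IsNorm N) (hN₁ : IsNorm N₁) (hΘ : Admissible Θ) (ν : ℕ) :
    M N₁ N Θ (ν + 1) = (Pool.Agent.Work.MP_7453a1_nt_norm.M N (col Θ) (ν + 1) : ℝ)
      * N₁ (fun _ => 1) := by
  classical
  have hk := N1_pos hN₁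
  have hinf := Pool.Agent.Work.MP_7453a1_nt_norm.infinite hN (adm12.mp hΘ)
  set p := IsBestDenominator N (col Θ) with hp
  have hM : ∀ j, Pool.Agent.Work.MP_7453a1_nt_norm.M N (col Θ) (j + 1) = Nat.nth p j := fun j => rfl
  have key : ∀ (j : ℕ) (r0 : ℝ), (∀ k, p k → (r0 < (k : ℝ) * N₁ (fun _ => 1) ↔ Nat.nth p j ≤ k)) →
      sInf {r | r ∈ Lengths N₁ N Θ ∧ r0 < r} = (Nat.nth p j : ℝ) * N₁ (fun _ => 1) := by
    intro j r0 h
    have hmem := Nat.nth_mem_of_infinite hinf j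
    refine IsLeast.csInf_eq ⟨⟨(lengths12 hN₁ _).mpr ⟨_, hmem, rfl⟩, (h _ hmem).mpr le_rfl⟩, ?_⟩
    rintro r ⟨hr, hr0⟩
    obtain ⟨k, hk1, rfl⟩ := (lengths12 hN₁ _).mp hr
    have h1 := (h k hk1).mp hr0
    exact mul_le_mul_of_nonneg_right (by exact_mod_cast h1) hk.le
  induction ν with
  | zero =>
    rw [hM]
    refine key 0 0 fun k hpk => ⟨fun _ => ?_, fun _ => ?_⟩
    · have := Nat.nth_count hpk
      rw [← this]
      exact (Nat.nth_le_nth hinf).mpr (Nat.zero_le _)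
    · refine mul_pos ?_ hk
      obtain ⟨q, y, h, hq⟩ := hpk
      have h0 := h.1
      have : 0 < k := by omega
      exact_mod_cast this
  | succ ν ih =>
    rw [hM (ν + 1)]
    show sInf {r | r ∈ Lengths N₁ N Θ ∧ M N₁ N Θ (ν + 1) < r} = _
    rw [ih, hM ν]
    refine key (ν + 1) _ fun k hpk => ?_
    have hcount := Nat.nth_count hpk
    rw [mul_lt_mul_iff_left₀ hk, Nat.cast_lt]
    conv_lhs => rw [← hcount]
    conv_rhs => rw [← hcount]
    rw [Nat.nth_lt_nth hinf, Nat.nth_le_nth hinf]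
    omega

/-- **Lower bound for `m = 1`.** -/
theorem low12 (hN : IsNorm N) (hN₁ : IsNorm N₁) (hΘ : Admissible Θ) {t c : ℝ} (ht : 1 ≤ t)
    (hc : 0 < c) (hUG : UG N t c) :
    (∃ c' : ℝ, 0 < c' ∧ ∀ ν, 1 ≤ ν → c' * t ^ ν ≤ M N₁ N Θ ν) ∧ ENNReal.ofReal t ≤ G N₁ N Θ := by
  have ht0 : 0 < t := by linarith
  have hk := N1_pos hN₁
  obtain ⟨ν₀, z, h0, h1, hz⟩ := Pool.Agent.Work.MP_7453a1_nt_sym.exists_frame2 hN (adm12.mp hΘ)
  have hMz : ∀ j, 1 ≤ j → (1 : ℝ) ≤ (Pool.Agent.Work.MP_7453a1_nt_norm.M N (col Θ) j : ℝ) := by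
    intro j hj
    have hinf := Pool.Agent.Work.MP_7453a1_nt_norm.infinite hN (adm12.mp hΘ)
    obtain ⟨q, y, h, hq⟩ := Nat.nth_mem_of_infinite hinf (j - 1)
    have h2 := h.1
    have : 1 ≤ Pool.Agent.Work.MP_7453a1_nt_norm.M N (col Θ) j := by
      have h3 := Int.natAbs_pos.mpr h2
      rw [hq] at h3
      exact h3
    exact_mod_cast this
  set κ := N₁ (fun _ => 1) with hκ
  set c1 : ℝ := min (c * κ / t ^ ν₀) (κ / t ^ ν₀) with hc1
  have hc1' : 0 < c1 := lt_min (by positivity) (by positivity)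
  have key : ∀ ν, 1 ≤ ν → c1 * t ^ ν ≤ M N₁ N Θ ν := by
    intro ν hν
    obtain ⟨j, rfl⟩ : ∃ j, ν = j + 1 := ⟨ν - 1, by omega⟩
    rw [M12 hN hN₁ hΘ]
    rcases Nat.lt_or_ge (j + 1) ν₀ with h2 | h2
    · have h3 : t ^ (j + 1) ≤ t ^ ν₀ := pow_le_pow_right₀ ht h2.le
      have h4 : c1 * t ^ (j + 1) ≤ κ / t ^ ν₀ * t ^ ν₀ :=
        mul_le_mul (min_le_right _ _) h3 (by positivity) (by positivity)
      have h5 : κ / t ^ ν₀ * t ^ ν₀ = κ := by field_simp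
      have h6 := mul_le_mul_of_nonneg_right (hMz (j + 1) hν) hk.le
      linarith
    · obtain ⟨k, hk1⟩ : ∃ k, j + 1 = ν₀ + k := ⟨j + 1 - ν₀, by omega⟩
      have h3 := hUG (col Θ) z hz k
      have h4 : ((z k).1 : ℝ) = (Pool.Agent.Work.MP_7453a1_nt_norm.M N (col Θ) (ν₀ + k) : ℝ) := by
        rw [h1 k]; simp
      have h5 : (1 : ℝ) ≤ ((z 0).1 : ℝ) := by exact_mod_cast hz.pos 0
      rw [h4] at h3
      rw [hk1, pow_add]
      have h6 : c1 * (t ^ ν₀ * t ^ k) ≤ c * κ / t ^ ν₀ * (t ^ ν₀ * t ^ k) :=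
        mul_le_mul_of_nonneg_right (min_le_left _ _) (by positivity)
      have h7 : c * κ / t ^ ν₀ * (t ^ ν₀ * t ^ k) = c * t ^ k * κ := by field_simp
      have h8 : c * t ^ k * 1 ≤ c * t ^ k * ((z 0).1 : ℝ) :=
        mul_le_mul_of_nonneg_left h5 (by positivity)
      have h9 : c * t ^ k * κ ≤ (Pool.Agent.Work.MP_7453a1_nt_norm.M N (col Θ) (ν₀ + k) : ℝ) * κ :=
        mul_le_mul_of_nonneg_right (by linarith) hk.le
      linarith
  refine ⟨⟨c1, hc1', key⟩, ?_⟩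
  have hlim : Tendsto (fun ν : ℕ => ENNReal.ofReal (c1 ^ (1 / (ν : ℝ)) * t)) atTop
      (𝓝 (ENNReal.ofReal t)) := by
    apply ENNReal.tendsto_ofReal
    have h1 : Tendsto (fun ν : ℕ => c1 ^ (1 / (ν : ℝ))) atTop (𝓝 (c1 ^ (0 : ℝ))) := by
      apply Tendsto.rpow tendsto_const_nhds tendsto_one_div_atTop_nhds_zero_nat
      left
      positivity
    rw [Real.rpow_zero] at h1
    simpa using h1.mul_const t
  rw [← hlim.liminf_eq]
  unfold G
  refine liminf_le_liminf ?_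
  filter_upwards [eventually_ge_atTop 1] with ν hν
  apply ENNReal.ofReal_le_ofReal
  calc c1 ^ (1 / (ν : ℝ)) * t = (c1 * t ^ ν) ^ (1 / (ν : ℝ)) := by
        rw [Real.mul_rpow (by positivity) (by positivity)]
        congr 1
        rw [one_div, Real.pow_rpow_inv_natCast ht0.le (by omega)]
    _ ≤ (M N₁ N Θ ν : ℝ) ^ (1 / (ν : ℝ)) :=
        Real.rpow_le_rpow (by positivity) (key ν hν) (by positivity)

end Pool.Agent.Work.MP_7453a1_nt_two
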