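import Pool.Agent.Work.MP_7453a1_nt_two.Unif

set_option autoImplicit false

/-!
Uniform growth of the denominators for `m = 1`, `n = 2` and parallelogram norms.
-/

namespace Pool.Agent.Work.MP_7453a1_nt_two

open Pool.Agent.Work.MP_7453a1_nt_norm Pool.Agent.Work.MP_7453a1_nt_h45
open Pool.Agent.Work.MP_7453a1_nt_sup
open Pool.Agent.Work.MP_7453a1_nt_sym (IsFrame2)

/-- Growth of a sequence satisfying the window relations, with an explicit constant. -/
theorem growth_unif {M : ℕ → ℤ} {ρ : ℝ} (hpos : ∀ k, 0 < M k) (hmono : ∀ k, M k < M (k + 1))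
    (hW : ∀ p, WF M p) (hρ : ρ ^ 3 = ρ + 1) (k : ℕ) :
    9 / 10 * ((M 0 : ℝ) * (ρ ^ 7)⁻¹) * ρ ^ k ≤ (M k : ℝ) := by
  obtain ⟨r1, r2⟩ := rho_bounds hρ
  have hρ0 : 0 < ρ := by linarith
  have hM0 : (0 : ℝ) < (M 0 : ℝ) := by exact_mod_cast hpos 0
  have hge : ∀ t, (M 0 : ℝ) ≤ (M t : ℝ) := by
    intro t
    induction t with
    | zero => exact le_rfl
    | succ t ih => exact ih.trans (by exact_mod_cast (hmono t).le)
  set S : ℝ := (M 0 : ℝ) * (ρ ^ 7)⁻¹ with hS
  have hS0 : 0 < S := by positivity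
  have g0 : Good M ρ S 0 := by
    intro t ht
    have h2 : ρ ^ (0 + t) ≤ ρ ^ 7 := pow_le_pow_right₀ (by linarith) (by omega)
    have h3 : (ρ ^ 7)⁻¹ * ρ ^ (0 + t) ≤ 1 := by
      rw [inv_mul_le_iff₀ (by positivity)]; linarith
    have h4 := mul_le_mul_of_nonneg_left h3 hM0.le
    have h5 := hge (0 + t)
    rw [hS]
    linarith
  have step : ∀ K, Good M ρ S K → ∃ K', K < K' ∧ Good M ρ S K' ∧
      ∀ j, K ≤ j → j < K' → 9 / 10 * S * ρ ^ j ≤ (M j : ℝ) := by
    intro K hG
    have hGj : ∀ j, K ≤ j → j < K + 8 → 9 / 10 * S * ρ ^ j ≤ (M j : ℝ) := by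
      intro j h1 h2
      have h3 := hG (j - K) (by omega)
      rw [show K + (j - K) = j by omega] at h3
      have h4 : 0 < S * ρ ^ j := by positivity
      linarith
    rcases (hW K).cases with hN | hD
    · refine ⟨K + 1, by omega, ?_, fun j h1 h2 => hGj j h1 (by omega)⟩
      intro t ht
      rcases Nat.lt_or_ge t 7 with h | h
      · have := hG (t + 1) (by omega)
        rwa [show K + (t + 1) = K + 1 + t by ring] at this
      · obtain rfl : t = 7 := by omega
        exact good_next hρ hS0 hG hN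
    · have hb := bounds (S := S * ρ ^ K) hpos hmono (by positivity) hW hD (by
        intro s hs
        have h1 := hG s hs
        have h2 := bnd_low hρ s hs
        have h3 : (bnd s : ℝ) * (S * ρ ^ K) ≤ 1000 * ρ ^ s * (S * ρ ^ K) :=
          mul_le_mul_of_nonneg_right h2 (by positivity)
        rw [pow_add] at h1
        linarith)
      refine ⟨K + 12, by omega, ?_, ?_⟩
      · intro t ht
        have h1 := hb (12 + t) (by omega)
        have h2 := bnd_high hρ (t := 12 + t) (by omega) (by omega)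
        have h3 : 1000 * ρ ^ (12 + t) * (S * ρ ^ K) ≤ (bnd (12 + t) : ℝ) * (S * ρ ^ K) :=
          mul_le_mul_of_nonneg_right h2 (by positivity)
        rw [show K + (12 + t) = K + 12 + t by ring] at h1
        rw [show K + 12 + t = K + (12 + t) by ring, pow_add]
        rw [show K + (12 + t) = K + 12 + t by ring]
        linarith
      · intro j h1 h2
        rcases Nat.lt_or_ge j (K + 8) with h | h
        · exact hGj j h1 h
        · obtain ⟨t, rfl⟩ : ∃ t, j = K + t := ⟨j - K, by omega⟩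
          have h3 := hb t (by omega)
          have h4 := bnd_mid hρ (t := t) (by omega) (by omega)
          have h5 : 900 * ρ ^ t * (S * ρ ^ K) ≤ (bnd t : ℝ) * (S * ρ ^ K) :=
            mul_le_mul_of_nonneg_right h4 (by positivity)
          rw [pow_add]
          linarith
  have all : ∀ n, ∃ K, n ≤ K ∧ Good M ρ S K ∧ ∀ j < K, 9 / 10 * S * ρ ^ j ≤ (M j : ℝ) := by
    intro n
    induction n with
    | zero => exact ⟨0, le_rfl, g0, fun j hj => absurd hj (by omega)⟩
    | succ n ih =>
      obtain ⟨K, h1, h2, h3⟩ := ih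
      obtain ⟨K', h4, h5, h6⟩ := step K h2
      refine ⟨K', by omega, h5, fun j hj => ?_⟩
      rcases Nat.lt_or_ge j K with h | h
      · exact h3 j h
      · exact h6 j h hj
  obtain ⟨K, h1, _, h3⟩ := all (k + 1)
  exact h3 k (by omega)

/-- Parallelogram norms. -/
theorem UG_sup {N : Seminorm ℝ V} {f g : V →ₗ[ℝ] ℝ} (hfg : ∀ x, N x = max |f x| |g x|) {ρ : ℝ}
    (hρ : ρ ^ 3 = ρ + 1) : UG N ρ (9 / 10 * (ρ ^ 7)⁻¹) := by
  intro Θ z hz2 k
  have hz : IsFrame N Θ z := hz2.toIsFrame
  let X : Pt 2 →+ ℝ := f.toAddMonoidHom.comp (ev Θ)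
  let Y : Pt 2 →+ ℝ := g.toAddMonoidHom.comp (ev Θ)
  have her : ∀ w : Pt 2, er N Θ w = max |X w| |Y w| := fun w => hfg (ev Θ w)
  have hmod : Mod sup X Y z (fun k => er N Θ (z k)) := by
    refine mod_sup hz.pos (fun k => hz.mono k (k + 1) (by omega)) ?_
      (fun k => hz.anti k (k + 1) (by omega)) ?_ ?_ ?_
    · intro k
      have h2 := hz.anti k (k + 1) (by omega)
      have h3 : 0 ≤ er N Θ (z (k + 1)) := er_nonneg _
      exact lt_of_le_of_lt h3 h2
    · intro k
      simp only [her]
      exact ⟨le_max_left _ _, le_max_right _ _⟩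
    · intro k
      simp only [her]
      exact le_max_iff.mp le_rfl
    · intro k w hw hw'
      have h2 := hz.excl k w hw hw'
      simp only [her w] at h2
      exact le_max_iff.mp h2
  have hW : ∀ p, WF (fun t => (z t).1) p := hmod.window (fun i hi =>
    hz.exceptional (i := i) (j := i + 1) (l := i + 2) (m := i + 3) (by omega) (by omega)
      (by omega) hi)
  have h1 := growth_unif (M := fun t => (z t).1) hz.pos
    (fun k => hz.mono k (k + 1) (by omega)) hW hρ k
  linarith

end Pool.Agent.Work.MP_7453a1_nt_two
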