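import Pool.Agent.Work.MP_7453a1_nt_two.UpC
import Pool.Agent.Work.MP_7453a1_nt_two.UnifSup

set_option autoImplicit false

/-!
One linear form in two variables: final assembly.
-/

namespace Pool.Agent.Work.MP_7453a1_nt_two

open Pool.Agent.Work.MP_7453a1_nt_norm (IsNorm)
open Pool.Agent.Work.MP_7453a1_nt_sym (Sym)
open scoped ENNReal

variable {N : Seminorm ℝ V} {N₁ : Seminorm ℝ (Fin 1 → ℝ)}

lemma one_le_rho {ρ : ℝ} (hρ : ρ ^ 3 = ρ + 1) : 1 ≤ ρ := by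
  linarith [(Pool.Agent.Work.MP_7453a1_nt.rho_bounds hρ).1]

/-- Every norm. -/
theorem low_all (hN : IsNorm N) (hN₁ : IsNorm N₁) {t : ℝ} (ht : 1 ≤ t)
    (h8 : t ^ 8 = 2 * t ^ 4 + t + 1) {Θ : Matrix (Fin 1) (Fin 2) ℝ} (hΘ : Admissible Θ) :
    (∃ c' : ℝ, 0 < c' ∧ ∀ ν, 1 ≤ ν → c' * (Real.sqrt t) ^ ν ≤ M N N₁ Θ ν) ∧
      ENNReal.ofReal (Real.sqrt t) ≤ G N N₁ Θ :=
  low hN hN₁ hΘ ht (c := (t ^ 8)⁻¹) (by positivity) (fun A _ => UG_all ht h8)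

/-- Parallelogram norms. -/
theorem low_par (hN : IsNorm N) (hN₁ : IsNorm N₁) {f g : V →ₗ[ℝ] ℝ}
    (hfg : ∀ x, N x = max |f x| |g x|) {ρ : ℝ} (hρ : ρ ^ 3 = ρ + 1)
    {Θ : Matrix (Fin 1) (Fin 2) ℝ} (hΘ : Admissible Θ) :
    (∃ c' : ℝ, 0 < c' ∧ ∀ ν, 1 ≤ ν → c' * (Real.sqrt ρ) ^ ν ≤ M N N₁ Θ ν) ∧
      ENNReal.ofReal (Real.sqrt ρ) ≤ G N N₁ Θ := by
  have h1 := one_le_rho hρ
  refine low hN hN₁ hΘ h1 (c := 9 / 10 * (ρ ^ 7)⁻¹) (by positivity) (fun A _ => ?_)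
  exact UG_sup (f := f ∘ₗ A) (g := g ∘ₗ A) (fun x => hfg (A x)) hρ

/-- The symmetry of order six after a linear change of coordinates. -/
lemma sym_comp {R : V →ₗ[ℝ] V} (hR : Sym N R) {A : V →ₗ[ℝ] V} (hA : Function.Injective A) :
    ∃ R' : V →ₗ[ℝ] V, Sym (N.comp A) R' := by
  let e : V ≃ₗ[ℝ] V := LinearEquiv.ofInjectiveEndo A hA
  have he : ∀ x, e x = A x := fun x => LinearEquiv.coe_ofInjectiveEndo A hA ▸ rfl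
  refine ⟨(e.symm : V →ₗ[ℝ] V) ∘ₗ R ∘ₗ A, ⟨fun z => ?_, fun z => ?_⟩⟩
  · rw [Seminorm.comp_apply, Seminorm.comp_apply]
    show N (A (e.symm (R (A z)))) = N (A z)
    rw [← he, LinearEquiv.apply_symm_apply, hR.inv]
  · show e.symm (R (A (e.symm (R (A z))))) = e.symm (R (A z)) - z
    rw [← he (e.symm _), LinearEquiv.apply_symm_apply, hR.sq, map_sub, ← he z,
      LinearEquiv.symm_apply_apply]

/-- Norms with a symmetry of order three. -/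
theorem low_sym (hN : IsNorm N) (hN₁ : IsNorm N₁) {R : V →ₗ[ℝ] V} (hR : Sym N R) {ρ : ℝ}
    (hρ : ρ ^ 3 = ρ + 1) {Θ : Matrix (Fin 1) (Fin 2) ℝ} (hΘ : Admissible Θ) :
    (∃ c' : ℝ, 0 < c' ∧ ∀ ν, 1 ≤ ν → c' * (Real.sqrt ρ) ^ ν ≤ M N N₁ Θ ν) ∧
      ENNReal.ofReal (Real.sqrt ρ) ≤ G N N₁ Θ := by
  have h1 := one_le_rho hρ
  refine low hN hN₁ hΘ h1 (c := (ρ ^ 6)⁻¹) (by positivity) (fun A hA => ?_)
  obtain ⟨R', hR'⟩ := sym_comp hR hA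
  exact UG_sym hR' hρ h1

/-- Exact value and attainment. -/
theorem exact_sym2 (hN : IsNorm N) (hN₁ : IsNorm N₁) {ρ : ℝ} (hρ : ρ ^ 3 = ρ + 1)
    {T : V →ₗ[ℝ] V} (hT : ∀ z, N (T z) = N z) (h3 : ∀ z, T (T (T z)) = z) (h1 : ∃ z, T z ≠ z) :
    g N N₁ = ENNReal.ofReal (Real.sqrt ρ) ∧
    (∃ Θ : Matrix (Fin 1) (Fin 2) ℝ, Admissible Θ ∧ G N N₁ Θ = ENNReal.ofReal (Real.sqrt ρ)) ∧
    (∀ Θ : Matrix (Fin 1) (Fin 2) ℝ, Admissible Θ →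
      ∃ c' : ℝ, 0 < c' ∧ ∀ ν, 1 ≤ ν → c' * (Real.sqrt ρ) ^ ν ≤ M N N₁ Θ ν) := by
  obtain ⟨R, hR⟩ := Pool.Agent.Work.MP_7453a1_nt_sym.sym_of_order_three hT h3 h1
  have low : ∀ Θ : Matrix (Fin 1) (Fin 2) ℝ, Admissible Θ →
      ENNReal.ofReal (Real.sqrt ρ) ≤ G N N₁ Θ := fun Θ hΘ => (low_sym hN hN₁ hR hρ hΘ).2
  obtain ⟨Θ₀, hΘ₀, hup⟩ := up2 hN hR hρ hN₁
  exact ⟨le_antisymm (iInf₂_le_of_le Θ₀ hΘ₀ hup) (le_iInf₂ low),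
    ⟨Θ₀, hΘ₀, le_antisymm hup (low Θ₀ hΘ₀)⟩, fun Θ hΘ => (low_sym hN hN₁ hR hρ hΘ).1⟩

end Pool.Agent.Work.MP_7453a1_nt_two
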