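import Pool.Agent.Work.MP_7453a1_nt_two.Low12

set_option autoImplicit false

/-!
The case `m = 1`, `n = 2`, norms with a linear isometry of order three, in the notation for
general `m, n`.
-/

namespace Pool.Agent.Work.MP_7453a1_nt_two

open Pool.Agent.Work.MP_7453a1_nt_norm (IsNorm IsBestDenominator Pt)
open Filter Topology
open scoped ENNReal

variable {N : Seminorm ℝ V} {N₁ : Seminorm ℝ (Fin 1 → ℝ)} {Θ : Matrix (Fin 2) (Fin 1) ℝ}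

/-- An upper bound for `G` in the notation for general `m, n`. -/
theorem G12_le (hN : IsNorm N) (hN₁ : IsNorm N₁) (hΘ : Admissible Θ) {r : ℝ} (hr : 0 < r)
    (h : Pool.Agent.Work.MP_7453a1_nt_norm.G N (col Θ) ≤ ENNReal.ofReal r) :
    G N₁ N Θ ≤ ENNReal.ofReal r := by
  have hk := N1_pos hN₁
  set κ := N₁ (fun _ => 1) with hκ
  refine le_of_forall_gt_imp_ge_of_dense fun b hb => ?_
  obtain ⟨s, hs0, hs1, hs2⟩ := ENNReal.lt_iff_exists_real_btwn.mp hb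
  have hrs : r < s := (ENNReal.ofReal_lt_ofReal_iff_of_nonneg hr.le).mp hs1
  set s' := (r + s) / 2 with hs'
  have h1 : r < s' := by rw [hs']; linarith
  have h2 : s' < s := by rw [hs']; linarith
  have hs'0 : 0 < s' := hr.trans h1
  have hf : ∃ᶠ ν : ℕ in atTop, ENNReal.ofReal
      ((Pool.Agent.Work.MP_7453a1_nt_norm.M N (col Θ) ν : ℝ) ^ (1 / (ν : ℝ))) <
        ENNReal.ofReal s' := by
    refine frequently_lt_of_liminf_lt ?_ (h.trans_lt ?_)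
    · isBoundedDefault
    · exact (ENNReal.ofReal_lt_ofReal_iff hs'0).mpr h1
  have he : ∀ᶠ ν : ℕ in atTop, κ ^ (1 / (ν : ℝ)) < s / s' := by
    have h3 : Tendsto (fun ν : ℕ => κ ^ (1 / (ν : ℝ))) atTop (𝓝 (κ ^ (0 : ℝ))) := by
      apply Tendsto.rpow tendsto_const_nhds tendsto_one_div_atTop_nhds_zero_nat
      left
      exact hk.ne'
    rw [Real.rpow_zero] at h3
    exact h3.eventually_lt_const (by rw [lt_div_iff₀ hs'0, one_mul]; exact h2)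
  refine liminf_le_of_frequently_le' ?_
  refine (hf.and_eventually (he.and (eventually_ge_atTop 1))).mono fun ν hν => ?_
  obtain ⟨h4, h5, h6⟩ := hν
  have h7 := (ENNReal.ofReal_lt_ofReal_iff hs'0).mp h4
  refine (ENNReal.ofReal_le_ofReal ?_).trans hs2.le
  obtain ⟨j, rfl⟩ : ∃ j, ν = j + 1 := ⟨ν - 1, by omega⟩
  rw [M12 hN hN₁ hΘ, Real.mul_rpow (by positivity) hk.le]
  calc _ ≤ s' * (s / s') := mul_le_mul h7.le h5.le (by positivity) hs'0.le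
    _ = s := by field_simp

/-- Exact value, attainment, growth and the six-term inequality for `m = 1`, `n = 2`. -/
theorem exact_sym12 (hN : IsNorm N) (hN₁ : IsNorm N₁) {ρ : ℝ} (hρ : ρ ^ 3 = ρ + 1)
    {T : V →ₗ[ℝ] V} (hT : ∀ z, N (T z) = N z) (h3 : ∀ z, T (T (T z)) = z) (h1 : ∃ z, T z ≠ z) :
    g N₁ N = ENNReal.ofReal ρ ∧
    (∃ Θ : Matrix (Fin 2) (Fin 1) ℝ, Admissible Θ ∧ G N₁ N Θ = ENNReal.ofReal ρ) ∧
    (∀ Θ : Matrix (Fin 2) (Fin 1) ℝ, Admissible Θ → (Lengths N₁ N Θ).Infinite ∧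
      (∃ c' : ℝ, 0 < c' ∧ ∀ ν, 1 ≤ ν → c' * ρ ^ ν ≤ M N₁ N Θ ν) ∧
      ∃ ν₀ : ℕ, 1 ≤ ν₀ ∧ ∀ ν, ν₀ ≤ ν →
        M N₁ N Θ (ν + 3) + M N₁ N Θ (ν + 2) ≤ M N₁ N Θ (ν + 5) ∨
          M N₁ N Θ (ν + 4) + M N₁ N Θ ν ≤ M N₁ N Θ (ν + 5)) := by
  have hk := N1_pos hN₁
  have hρ1 := one_le_rho hρ
  obtain ⟨k1, ⟨Θ', hΘ', k2⟩, k3⟩ :=
    Pool.Agent.Work.MP_7453a1_nt_sym.exact_sym hρ hN (T := T) hT h3 h1
  obtain ⟨R, hR⟩ := Pool.Agent.Work.MP_7453a1_nt_sym.sym_of_order_three hT h3 h1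
  have low : ∀ Θ : Matrix (Fin 2) (Fin 1) ℝ, Admissible Θ →
      (∃ c' : ℝ, 0 < c' ∧ ∀ ν, 1 ≤ ν → c' * ρ ^ ν ≤ M N₁ N Θ ν) ∧
        ENNReal.ofReal ρ ≤ G N₁ N Θ := fun Θ hΘ =>
    low12 hN hN₁ hΘ hρ1 (c := (ρ ^ 6)⁻¹) (by positivity) (UG_sym hR hρ hρ1)
  set Θ₀ : Matrix (Fin 2) (Fin 1) ℝ := fun i _ => Θ' i with hΘ₀
  have hcol : col Θ₀ = Θ' := rfl
  have hadm : Admissible Θ₀ := adm12.mpr (by rw [hcol]; exact hΘ')
  have hup : G N₁ N Θ₀ ≤ ENNReal.ofReal ρ :=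
    G12_le hN hN₁ hadm (by linarith) (by rw [hcol]; exact k2.le)
  refine ⟨le_antisymm (iInf₂_le_of_le Θ₀ hadm hup) (le_iInf₂ fun Θ hΘ => (low Θ hΘ).2),
    ⟨Θ₀, hadm, le_antisymm hup (low Θ₀ hadm).2⟩, fun Θ hΘ => ⟨?_, (low Θ hΘ).1, ?_⟩⟩
  · have h2 := Pool.Agent.Work.MP_7453a1_nt_norm.infinite hN (adm12.mp hΘ)
    refine (h2.image (f := fun k : ℕ => (k : ℝ) * N₁ (fun _ => 1)) ?_).mono ?_
    · intro a _ b _ hab
      have h4 := mul_right_cancel₀ hk.ne' hab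
      exact_mod_cast h4
    · rintro r ⟨k, hk1, rfl⟩
      exact (lengths12 hN₁ _).mpr ⟨k, hk1, rfl⟩
  · obtain ⟨_, ν₀, h4, h5⟩ := k3 (col Θ) (adm12.mp hΘ)
    refine ⟨ν₀, h4, fun ν hν => ?_⟩
    obtain ⟨j, rfl⟩ : ∃ j, ν = j + 1 := ⟨ν - 1, by omega⟩
    have e2 : j + 1 + 2 = (j + 2) + 1 := by ring
    have e3 : j + 1 + 3 = (j + 3) + 1 := by ring
    have e4 : j + 1 + 4 = (j + 4) + 1 := by ring
    have e5 : j + 1 + 5 = (j + 5) + 1 := by ring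
    have h6 := h5 (j + 1) hν
    rw [e2, e3, e4, e5] at h6 ⊢
    rw [M12 hN hN₁ hΘ (j + 3), M12 hN hN₁ hΘ (j + 2), M12 hN hN₁ hΘ (j + 5),
      M12 hN hN₁ hΘ (j + 4), M12 hN hN₁ hΘ j, ← add_mul, ← add_mul]
    rcases h6 with h6 | h6
    · left
      exact mul_le_mul_of_nonneg_right (by exact_mod_cast h6) hk.le
    · right
      exact mul_le_mul_of_nonneg_right (by exact_mod_cast h6) hk.le

end Pool.Agent.Work.MP_7453a1_nt_two
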