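import Pool.Agent.Work.MP_7453a1_nt_two.UpB

set_option autoImplicit false

/-!
Upper bound for one linear form in two variables and norms with a symmetry of order six.
-/

namespace Pool.Agent.Work.MP_7453a1_nt_two

open Pool.Agent.Work.MP_7453a1_nt_norm (IsNorm lower)
open Pool.Agent.Work.MP_7453a1_nt_sym (Sym)
open Pool.Agent.Work.MP_7453a1_nt_sym.UPAux
open Pool.Agent.Work.MP_7453a1_nt (L Q Nf U zv L_U Q_U L_zv Q_zv L_mul_Q Nf_eq_zero rho_bounds
  rho_sq_bounds Q_sq mul_bd)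
open Filter Topology
open scoped ENNReal

variable {N : Seminorm ℝ V} {R : V →ₗ[ℝ] V} {ρ : ℝ} {N₁ : Seminorm ℝ (Fin 1 → ℝ)}

/-- **Upper bound.** -/
theorem up2 (hN : IsNorm N) (h : Sym N R) (hρ : ρ ^ 3 = ρ + 1) (hN₁ : IsNorm N₁) :
    ∃ Θ : Matrix (Fin 1) (Fin 2) ℝ, Admissible Θ ∧ G N N₁ Θ ≤ ENNReal.ofReal (Real.sqrt ρ) := by
  obtain ⟨a, c, P⟩ := exists_par hρ
  obtain ⟨r1, r2⟩ := rho_bounds hρ
  have hρ0 : 0 < ρ := by linarith
  obtain ⟨cl, hcl, hlow⟩ := lower hN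
  obtain ⟨K, m, n, w, κ, hF1, hF2, hκ⟩ := params2 h P (ε := cl * 0.002) (by positivity)
  have hτ := tau_ne hρ K m n
  have hτe : tau ρ K m n = -K + ρ + (m * K - n) * ρ ^ 2 := rfl
  set τ := tau ρ K m n with hτd
  clear_value τ
  have hτa : 0 < |τ| := abs_pos.mpr hτ
  have hw : w ≠ 0 := by
    rintro rfl
    have e : ∀ v, E R ρ a c 0 v = 0 := by
      intro v; unfold E Lam; simp
    rw [e, e] at hF1
    have := congrFun hF1 0
    simp at this
  have hNw : 0 < N w := N_pos hN hw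
  set θ : V := ![ρ ^ 2 / τ, (1 - m * ρ ^ 2) / τ] with hθd
  have t0 : θ 0 = ρ ^ 2 / τ := rfl
  have t1 : θ 1 = (1 - m * ρ ^ 2) / τ := rfl
  clear_value θ
  have hLL : ∀ u : P2, LL ρ (tr2 K m n u) = τ * lf θ u := by
    intro u
    have e : τ * lf θ u = ρ ^ 2 * u.1 0 + (1 - m * ρ ^ 2) * u.1 1 - τ * u.2 := by
      rw [lf_apply, t0, t1]; field_simp
    rw [e, hτe]
    unfold LL L tr2
    simp only
    push_cast
    ring
  set e0 : V := E R ρ a c w (-K, 1, m * K - n) with he0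
  have hE : ∀ u : P2, E R ρ a c w (tr2 K m n u) = xv u + (u.1 1 : ℝ) • κ + lf θ u • e0 := by
    intro u
    have h1 : xv u = (u.1 0 : ℝ) • ![1, 0] + (u.1 1 : ℝ) • ![0, 1] := by
      rw [xv_apply]
      ext i
      fin_cases i <;> simp
    have h2 : (![0, 1] : V) = E R ρ a c w (1, 0, -m) - ((1 - m * ρ ^ 2) / τ) • e0 - κ := by
      rw [hF2, add_sub_cancel_right]
    have h3 : E R ρ a c w (tr2 K m n u) = (u.1 0 : ℝ) • E R ρ a c w (0, 0, 1)
        + (u.1 1 : ℝ) • E R ρ a c w (1, 0, -m) - (u.2 : ℝ) • e0 := by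
      rw [he0]
      unfold E tr2
      simp only
      push_cast
      module
    rw [h1, ← hF1, h2, h3, lf_apply, t0, t1]
    module
  clear_value e0
  set C0 : ℝ := N e0 with hC0
  have hC00 : 0 ≤ C0 := apply_nonneg N _
  have hκu : ∀ u : P2, N ((u.1 1 : ℝ) • κ) ≤ 0.002 * N (xv u) := by
    intro u
    rw [map_smul_eq_mul, Real.norm_eq_abs]
    have h1 := coord_le u 1
    have h2 := hlow (xv u)
    calc |(u.1 1 : ℝ)| * N κ ≤ ‖xv u‖ * (cl * 0.002) :=
          mul_le_mul h1 hκ (apply_nonneg N _) (norm_nonneg _)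
      _ ≤ _ := by linarith
  have hup : ∀ u : P2, N (E R ρ a c w (tr2 K m n u)) ≤ 1.002 * N (xv u) + C0 * |lf θ u| := by
    intro u
    rw [hE]
    refine (map_add_le_add N _ _).trans ?_
    have h1 := map_add_le_add N (xv u) ((u.1 1 : ℝ) • κ)
    rw [map_smul_eq_mul N (lf θ u), Real.norm_eq_abs]
    have h2 := hκu u
    rw [← hC0]
    linarith
  have hdn : ∀ u : P2, 0.998 * N (xv u) ≤ N (E R ρ a c w (tr2 K m n u)) + C0 * |lf θ u| := by
    intro u
    rw [hE]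
    have h1 : N (xv u) ≤ N (xv u + (u.1 1 : ℝ) • κ + lf θ u • e0) + N ((u.1 1 : ℝ) • κ)
        + N (lf θ u • e0) := by
      have h3 := map_sub_le_add N (xv u + (u.1 1 : ℝ) • κ + lf θ u • e0) (lf θ u • e0)
      rw [add_sub_cancel_right] at h3
      have h4 := map_sub_le_add N (xv u + (u.1 1 : ℝ) • κ) ((u.1 1 : ℝ) • κ)
      rw [add_sub_cancel_right] at h4
      linarith
    rw [map_smul_eq_mul N (lf θ u), Real.norm_eq_abs] at h1
    have h2 := hκu u
    rw [← hC0] at h1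
    linarith
  -- admissibility
  have hadm : Adm θ := by
    intro u hu
    have h1 := hLL u
    rw [hu, mul_zero] at h1
    have h2 := L_mul_Q hρ (tr2 K m n u).1 (tr2 K m n u).2.1 (tr2 K m n u).2.2
    have h1' : L ρ (tr2 K m n u).1 (tr2 K m n u).2.1 (tr2 K m n u).2.2 = 0 := h1
    rw [h1', zero_mul] at h2
    have h3 : Nf (tr2 K m n u).1 (tr2 K m n u).2.1 (tr2 K m n u).2.2 = 0 := by
      exact_mod_cast h2.symm
    obtain ⟨x0, x1, x2⟩ := Nf_eq_zero _ _ _ h3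
    apply tr2_inj K m n
    rw [tr2_zero]
    exact Prod.ext x0 (Prod.ext x1 x2)
  let Θ : Matrix (Fin 1) (Fin 2) ℝ := fun _ => θ
  have hΘ0 : Θ 0 = θ := rfl
  have hAdm : Admissible Θ := adm_iff.mpr (by rw [hΘ0]; exact hadm)
  -- the chain
  set Pk : ℕ → P2 := fun k => rt2 K m n (wv k) with hPk
  have htr : ∀ k, tr2 K m n (Pk k) = wv k := fun k => tr2_rt2 K m n _
  have hlf : ∀ k, ρ ^ k * (|τ| * |lf θ (Pk k)|) = 1 := by
    intro k
    have h1 := hLL (Pk k)
    rw [htr] at h1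
    rw [← abs_mul, ← h1, ← abs_of_pos (by positivity : 0 < ρ ^ k), ← abs_mul, LL_wv hρ, abs_one]
  have hEk : ∀ k, E R ρ a c w (tr2 K m n (Pk k)) = bw R ρ a c w k := by
    intro k; rw [htr, E_wv h P]
  obtain ⟨k0, hk0⟩ := pow_unbounded_of_one_lt (10000 * C0 / (|τ| * N w)) (by linarith : 1 < ρ)
  have hδ : ∀ k, k0 ≤ k → C0 * |lf θ (Pk k)| ≤ 0.0001 * N w := by
    intro k hk
    have h1 : 10000 * C0 / (|τ| * N w) < ρ ^ k :=
      hk0.trans_le (pow_le_pow_right₀ (by linarith) hk)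
    rw [div_lt_iff₀ (by positivity)] at h1
    have h2 := hlf k
    have h3 : 0 ≤ |lf θ (Pk k)| := abs_nonneg _
    have h4 : 10000 * C0 * |lf θ (Pk k)| ≤ ρ ^ k * (|τ| * N w) * |lf θ (Pk k)| :=
      mul_le_mul_of_nonneg_right h1.le h3
    have h5 : ρ ^ k * (|τ| * N w) * |lf θ (Pk k)| = N w := by
      have : ρ ^ k * (|τ| * N w) * |lf θ (Pk k)| = N w * (ρ ^ k * (|τ| * |lf θ (Pk k)|)) := by ring
      rw [this, h2, mul_one]
    linarith
  have hbig : ∀ k, N w ≤ N (bw R ρ a c w k) := fun k => N_bw_ge h P w k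
  have hub : ∀ k, k0 ≤ k → 0.998 * N (xv (Pk k)) ≤ 1.0001 * N (bw R ρ a c w k) := by
    intro k hk
    have h1 := hdn (Pk k)
    rw [hEk] at h1
    have h2 := hδ k hk
    have h3 := hbig k
    linarith
  have hlb : ∀ k, k0 ≤ k → 0 < N (xv (Pk k)) := by
    intro k hk
    have h1 := hup (Pk k)
    rw [hEk] at h1
    have h2 := hδ k hk
    have h3 := hbig k
    linarith
  have hbest : ∀ k, k0 ≤ k → ∀ u : P2, N (xv u) ≤ N (xv (Pk k)) → |lf θ u| ≤ |lf θ (Pk k)| →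
      u = 0 ∨ u = Pk k ∨ u = -Pk k := by
    intro k hk u h1 h2
    have hL : ρ ^ k * |LL ρ (tr2 K m n u)| ≤ 1.02 := by
      rw [hLL, abs_mul]
      have h3 := hlf k
      have h4 : ρ ^ k * (|τ| * |lf θ u|) ≤ ρ ^ k * (|τ| * |lf θ (Pk k)|) := by
        refine mul_le_mul_of_nonneg_left ?_ (by positivity)
        exact mul_le_mul_of_nonneg_left h2 hτa.le
      linarith
    have hE' : N (E R ρ a c w (tr2 K m n u)) ≤ 1.005 * N (bw R ρ a c w k) := by
      have h3 := hup u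
      have h4 := hub k hk
      have h5 := hδ k hk
      have h6 := hbig k
      have h7 : C0 * |lf θ u| ≤ C0 * |lf θ (Pk k)| := mul_le_mul_of_nonneg_left h2 hC00
      linarith
    rcases chain2 hN h P hw k _ hL hE' with h3 | h3 | h3
    · left; apply tr2_inj K m n; rw [h3, tr2_zero]
    · right; left; apply tr2_inj K m n; rw [h3, htr]
    · right; right; apply tr2_inj K m n; rw [h3, tr2_neg, htr]
  have hmono : ∀ k, k0 ≤ k → N (xv (Pk k)) < N (xv (Pk (k + 1))) := by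
    intro k hk
    by_contra hcon
    push Not at hcon
    have h1 := hlf k
    have h2 := hlf (k + 1)
    have hpk : 0 < ρ ^ k := by positivity
    have h3 : |lf θ (Pk k)| = ρ * |lf θ (Pk (k + 1))| := by
      have h4 : ρ ^ k * |τ| * |lf θ (Pk k)| = ρ ^ k * |τ| * (ρ * |lf θ (Pk (k + 1))|) := by
        rw [pow_succ] at h2
        linarith
      exact mul_left_cancel₀ (by positivity) h4
    have h5 : 0 < |lf θ (Pk (k + 1))| := by
      by_contra h6
      have h7 : |lf θ (Pk (k + 1))| = 0 := le_antisymm (not_lt.mp h6) (abs_nonneg _)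
      rw [h7] at h2
      simp at h2
    rcases hbest k hk (Pk (k + 1)) hcon (by rw [h3]; nlinarith) with h6 | h6 | h6
    · rw [h6, map_zero, abs_zero] at h5
      exact lt_irrefl _ h5
    · rw [h6] at h3 h5
      nlinarith
    · rw [h6, map_neg, abs_neg] at h3 h5
      nlinarith
  refine ⟨Θ, hAdm, ?_⟩
  have hs0 : 0 < Real.sqrt ρ := Real.sqrt_pos.mpr hρ0
  refine G_le_of_chain2 hN hN₁ hAdm (C := 2.1 * (Real.sqrt ρ) ^ k0 * N w) hs0 (by positivity)
    (fun j => N (xv (Pk (k0 + j)))) (fun j => hmono (k0 + j) (by omega)) (hlb k0 le_rfl) ?_ ?_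
  · intro j
    refine ⟨(Pk (k0 + j)).1, fun _ => (Pk (k0 + j)).2, ?_, rfl⟩
    rw [isBest_iff2 hN₁, hΘ0]
    refine ⟨?_, fun u h1 h2 => hbest (k0 + j) (by omega) u h1 h2⟩
    intro h0
    have h1 := hlb (k0 + j) (by omega)
    have h2 : xv (Pk (k0 + j)) = 0 := by
      rw [xv_apply, h0]
      ext i
      fin_cases i <;> simp
    rw [h2, map_zero] at h1
    exact lt_irrefl _ h1
  · intro j
    have h1 := hub (k0 + j) (by omega)
    have h2 := N_bw_le h P w (k0 + j)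
    have h3 : 2.1 * (Real.sqrt ρ) ^ k0 * N w * (Real.sqrt ρ) ^ j
        = 2.1 * (Real.sqrt ρ) ^ (k0 + j) * N w := by
      rw [pow_add]; ring
    rw [h3]
    have h4 : 0 ≤ (Real.sqrt ρ) ^ (k0 + j) * N w := by positivity
    linarith

end Pool.Agent.Work.MP_7453a1_nt_two
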