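import Pool.Agent.Work.MP_7453a1_nt_two.Decay

set_option autoImplicit false

/-!
Growth of the lengths from the decay of the errors, for one linear form in two variables.
-/

namespace Pool.Agent.Work.MP_7453a1_nt_two

open Pool.Agent.Work.MP_7453a1_nt_norm Filter Topology

variable {N : Seminorm ℝ V} {θ : V}

/-- Sequences of best approximation points. -/
structure Fr (N : Seminorm ℝ V) (θ : V) (z : ℕ → P2) : Prop where
  best : ∀ k, Best2 N θ (z k)
  mono : ∀ k, N (xv (z k)) < N (xv (z (k + 1)))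
  anti : ∀ k, lf θ (z (k + 1)) < lf θ (z k)
  excl : ∀ (k : ℕ) (w : P2), w ≠ 0 → N (xv w) < N (xv (z (k + 1))) → lf θ (z k) ≤ |lf θ w|
  pos0 : 0 < N (xv (z 0))

/-- The vector `L(a) x(b) - L(b) x(a)`. -/
noncomputable def dd (θ : V) (a b : P2) : V := lf θ a • xv b - lf θ b • xv a

/-- The determinant. -/
def det3 (a b w : P2) : ℤ :=
  (a.1 1 * b.2 - a.2 * b.1 1) * w.1 0 + (a.2 * b.1 0 - a.1 0 * b.2) * w.1 1
    + (a.1 0 * b.1 1 - a.1 1 * b.1 0) * w.2

lemma dd_zero_of_cross (θ : V) (a b : P2) (h0 : a.1 1 * b.2 - a.2 * b.1 1 = 0)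
    (h1 : a.2 * b.1 0 - a.1 0 * b.2 = 0) (h2 : a.1 0 * b.1 1 - a.1 1 * b.1 0 = 0) :
    dd θ a b = 0 := by
  have h0' : (a.1 1 : ℝ) * b.2 - a.2 * b.1 1 = 0 := by exact_mod_cast h0
  have h1' : (a.2 : ℝ) * b.1 0 - a.1 0 * b.2 = 0 := by exact_mod_cast h1
  have h2' : (a.1 0 : ℝ) * b.1 1 - a.1 1 * b.1 0 = 0 := by exact_mod_cast h2
  unfold dd
  rw [xv_apply, xv_apply, lf_apply, lf_apply]
  ext i
  fin_cases i
  · simp only [Fin.zero_eta, Pi.sub_apply, Pi.smul_apply, Matrix.cons_val_zero, smul_eq_mul,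
      Pi.zero_apply]
    linear_combination (-θ 1) * h2' - h1'
  · simp only [Fin.mk_one, Pi.sub_apply, Pi.smul_apply, Matrix.cons_val_one, Matrix.cons_val_zero,
      smul_eq_mul, Pi.zero_apply]
    linear_combination (θ 0) * h2' + h0'

/-- A point in the plane of `a` and `b` is a rational combination. -/
lemma planar {a b w : P2} (h : dd θ a b ≠ 0) (hdet : det3 a b w = 0) :
    ∃ (p q s : ℤ), 0 < s ∧ s • w = p • a + q • b := by
  set n0 := a.1 1 * b.2 - a.2 * b.1 1 with hn0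
  set n1 := a.2 * b.1 0 - a.1 0 * b.2 with hn1
  set n2 := a.1 0 * b.1 1 - a.1 1 * b.1 0 with hn2
  have hs : 0 < n0 ^ 2 + n1 ^ 2 + n2 ^ 2 := by
    by_contra hcon
    push Not at hcon
    have e0 : n0 = 0 := by nlinarith [sq_nonneg n0, sq_nonneg n1, sq_nonneg n2]
    have e1 : n1 = 0 := by nlinarith [sq_nonneg n0, sq_nonneg n1, sq_nonneg n2]
    have e2 : n2 = 0 := by nlinarith [sq_nonneg n0, sq_nonneg n1, sq_nonneg n2]
    exact h (dd_zero_of_cross θ a b e0 e1 e2)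
  have hd : n0 * w.1 0 + n1 * w.1 1 + n2 * w.2 = 0 := hdet
  refine ⟨(w.1 1 * b.2 - w.2 * b.1 1) * n0 + (w.2 * b.1 0 - w.1 0 * b.2) * n1
      + (w.1 0 * b.1 1 - w.1 1 * b.1 0) * n2,
    (a.1 1 * w.2 - a.2 * w.1 1) * n0 + (a.2 * w.1 0 - a.1 0 * w.2) * n1
      + (a.1 0 * w.1 1 - a.1 1 * w.1 0) * n2, n0 ^ 2 + n1 ^ 2 + n2 ^ 2, hs, ?_⟩
  refine Prod.ext ?_ ?_
  · ext i
    fin_cases i
    · simp only [Prod.smul_fst, Prod.fst_add, Pi.smul_apply, Pi.add_apply, smul_eq_mul,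
        Fin.zero_eta]
      linear_combination n0 * hd
    · simp only [Prod.smul_fst, Prod.fst_add, Pi.smul_apply, Pi.add_apply, smul_eq_mul, Fin.mk_one]
      linear_combination n1 * hd
  · simp only [Prod.smul_snd, Prod.snd_add, smul_eq_mul]
    linear_combination n2 * hd

/-- Two consecutive best approximation points are a basis of the lattice points in their plane. -/
lemma basis {a b w : P2} (hb0 : 0 < lf θ b) (hab : lf θ b < lf θ a)
    (hN : N (xv a) < N (xv b))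
    (hx : ∀ u : P2, u ≠ 0 → N (xv u) < N (xv b) → lf θ a ≤ |lf θ u|)
    (h : dd θ a b ≠ 0) (hdet : det3 a b w = 0) : ∃ p q : ℤ, w = p • a + q • b := by
  obtain ⟨p, q, s, hs, he⟩ := planar h hdet
  -- nearest integers
  have near : ∀ x : ℤ, ∃ y : ℤ, 2 * |x - s * y| ≤ s := by
    intro x
    refine ⟨(2 * x + s) / (2 * s), ?_⟩
    have h1 := Int.emod_nonneg (2 * x + s) (show 2 * s ≠ 0 by omega)
    have h2 := Int.emod_lt_of_pos (2 * x + s) (show 0 < 2 * s by omega)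
    have h3 := Int.emod_add_mul_ediv (2 * x + s) (2 * s)
    set y := (2 * x + s) / (2 * s)
    have h4 : |x - s * y| = |x - s * y| := rfl
    rcases abs_cases (x - s * y) with ⟨h5, _⟩ | ⟨h5, _⟩ <;> rw [h5] <;> nlinarith
  obtain ⟨p', hp'⟩ := near p
  obtain ⟨q', hq'⟩ := near q
  refine ⟨p', q', ?_⟩
  by_contra hne
  set u : P2 := w - (p' • a + q' • b) with hu
  have hu0 : u ≠ 0 := fun h0 => hne (sub_eq_zero.mp h0)
  have hsu : s • u = (p - s * p') • a + (q - s * q') • b := by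
    rw [hu, smul_sub, he, smul_add, sub_smul, sub_smul, mul_smul, mul_smul]
    abel
  have hsR : (0 : ℝ) < (s : ℝ) := by exact_mod_cast hs
  have hp2 : |((p - s * p' : ℤ) : ℝ)| ≤ s / 2 := by
    have : ((2 * |p - s * p'| : ℤ) : ℝ) ≤ ((s : ℤ) : ℝ) := by exact_mod_cast hp'
    push_cast at this ⊢
    linarith
  have hq2 : |((q - s * q' : ℤ) : ℝ)| ≤ s / 2 := by
    have : ((2 * |q - s * q'| : ℤ) : ℝ) ≤ ((s : ℤ) : ℝ) := by exact_mod_cast hq'
    push_cast at this ⊢
    linarith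
  have hl : (s : ℝ) * lf θ u = ((p - s * p' : ℤ) : ℝ) * lf θ a + ((q - s * q' : ℤ) : ℝ) * lf θ b := by
    have := congrArg (lf θ) hsu
    rw [map_zsmul, map_add, map_zsmul, map_zsmul, zsmul_eq_mul, zsmul_eq_mul, zsmul_eq_mul] at this
    exact this
  have hv : (s : ℝ) • xv u = ((p - s * p' : ℤ) : ℝ) • xv a + ((q - s * q' : ℤ) : ℝ) • xv b := by
    have := congrArg xv hsu
    rw [map_zsmul, map_add, map_zsmul, map_zsmul] at this
    rw [← Int.cast_smul_eq_zsmul ℝ, ← Int.cast_smul_eq_zsmul ℝ, ← Int.cast_smul_eq_zsmul ℝ] at this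
    exact this
  have hl2 : |lf θ u| < lf θ a := by
    have h1 : (s : ℝ) * |lf θ u| ≤ s / 2 * lf θ a + s / 2 * lf θ b := by
      rw [← abs_of_pos hsR, ← abs_mul, hl, abs_of_pos hsR]
      refine (abs_add_le _ _).trans ?_
      rw [abs_mul, abs_mul, abs_of_pos hb0, abs_of_pos (hb0.trans hab)]
      exact add_le_add (mul_le_mul_of_nonneg_right hp2 (hb0.trans hab).le)
        (mul_le_mul_of_nonneg_right hq2 hb0.le)
    have h2 : (s : ℝ) * |lf θ u| < s * lf θ a := by nlinarith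
    exact lt_of_mul_lt_mul_left h2 hsR.le
  have hv2 : N (xv u) < N (xv b) := by
    have h1 : (s : ℝ) * N (xv u) ≤ s / 2 * N (xv a) + s / 2 * N (xv b) := by
      have e : (s : ℝ) * N (xv u) = N ((s : ℝ) • xv u) := by
        rw [map_smul_eq_mul, Real.norm_of_nonneg hsR.le]
      rw [e, hv]
      refine (map_add_le_add N _ _).trans ?_
      rw [map_smul_eq_mul, map_smul_eq_mul, Real.norm_eq_abs, Real.norm_eq_abs]
      exact add_le_add (mul_le_mul_of_nonneg_right hp2 (apply_nonneg N _))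
        (mul_le_mul_of_nonneg_right hq2 (apply_nonneg N _))
    have h2 : (s : ℝ) * N (xv u) < s * N (xv b) := by nlinarith
    exact lt_of_mul_lt_mul_left h2 hsR.le
  have := hx u hu0 hv2
  linarith

lemma lf_comb (a b : P2) (p q : ℤ) : lf θ (p • a + q • b) = (p : ℝ) * lf θ a + q * lf θ b := by
  rw [map_add, map_zsmul, map_zsmul, zsmul_eq_mul, zsmul_eq_mul]

lemma xv_comb (a b : P2) (p q : ℤ) : xv (p • a + q • b) = (p : ℝ) • xv a + (q : ℝ) • xv b := by
  rw [map_add, map_zsmul, map_zsmul, Int.cast_smul_eq_zsmul, Int.cast_smul_eq_zsmul]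

lemma dd_comb_right (a b : P2) (p q : ℤ) :
    dd θ b (p • a + q • b) = (-(p : ℝ)) • dd θ a b := by
  unfold dd
  rw [lf_comb, xv_comb]
  module

lemma dd_comb_left (b w : P2) (p q : ℤ) :
    dd θ (p • b + q • w) b = (-(q : ℝ)) • dd θ b w := by
  unfold dd
  rw [lf_comb, xv_comb]
  module

lemma det3_cyc (a b w : P2) : det3 b w a = det3 a b w := by
  unfold det3; ring

/-- Bound for the determinant. -/
lemma det3_le (hN : IsNorm N) : ∃ C : ℝ, 0 < C ∧ ∀ (θ : V) (a b w : P2),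
    |(det3 a b w : ℝ)| ≤ C * (|lf θ a| * (N (xv b) * N (xv w)) + |lf θ b| * (N (xv a) * N (xv w))
      + |lf θ w| * (N (xv a) * N (xv b))) := by
  obtain ⟨c, hc, hlow⟩ := lower hN
  refine ⟨2 / c ^ 2, by positivity, fun θ a b w => ?_⟩
  have hco : ∀ (u : P2) (j : Fin 2), |(u.1 j : ℝ)| ≤ N (xv u) / c := by
    intro u j
    rw [le_div_iff₀ hc]
    have h1 := hlow (xv u)
    have h2 := coord_le u j
    nlinarith
  have hw : ∀ u v : P2, |(u.1 0 : ℝ) * v.1 1 - u.1 1 * v.1 0| ≤ 2 / c ^ 2 * (N (xv u) * N (xv v)) := by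
    intro u v
    refine (abs_sub _ _).trans ?_
    rw [abs_mul, abs_mul]
    have h1 := mul_le_mul (hco u 0) (hco v 1) (abs_nonneg _)
      (div_nonneg (apply_nonneg N _) hc.le)
    have h2 := mul_le_mul (hco u 1) (hco v 0) (abs_nonneg _)
      (div_nonneg (apply_nonneg N _) hc.le)
    have h3 : 2 / c ^ 2 * (N (xv u) * N (xv v)) = N (xv u) / c * (N (xv v) / c)
        + N (xv u) / c * (N (xv v) / c) := by
      field_simp; ring
    rw [h3]
    linarith
  have e : (det3 a b w : ℝ) = -(lf θ a * ((b.1 0 : ℝ) * w.1 1 - b.1 1 * w.1 0))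
      + lf θ b * ((a.1 0 : ℝ) * w.1 1 - a.1 1 * w.1 0)
      - lf θ w * ((a.1 0 : ℝ) * b.1 1 - a.1 1 * b.1 0) := by
    rw [lf_apply, lf_apply, lf_apply]
    unfold det3
    push_cast
    ring
  rw [e]
  have h1 : |lf θ a * ((b.1 0 : ℝ) * w.1 1 - b.1 1 * w.1 0)|
      ≤ |lf θ a| * (2 / c ^ 2 * (N (xv b) * N (xv w))) := by
    rw [abs_mul]; exact mul_le_mul_of_nonneg_left (hw b w) (abs_nonneg _)
  have h2 : |lf θ b * ((a.1 0 : ℝ) * w.1 1 - a.1 1 * w.1 0)|
      ≤ |lf θ b| * (2 / c ^ 2 * (N (xv a) * N (xv w))) := by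
    rw [abs_mul]; exact mul_le_mul_of_nonneg_left (hw a w) (abs_nonneg _)
  have h3 : |lf θ w * ((a.1 0 : ℝ) * b.1 1 - a.1 1 * b.1 0)|
      ≤ |lf θ w| * (2 / c ^ 2 * (N (xv a) * N (xv b))) := by
    rw [abs_mul]; exact mul_le_mul_of_nonneg_left (hw a b) (abs_nonneg _)
  refine (abs_sub _ _).trans ?_
  refine (add_le_add (abs_add_le _ _) le_rfl).trans ?_
  rw [abs_neg]
  calc |lf θ a * ((b.1 0 : ℝ) * w.1 1 - b.1 1 * w.1 0)|
        + |lf θ b * ((a.1 0 : ℝ) * w.1 1 - a.1 1 * w.1 0)|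
        + |lf θ w * ((a.1 0 : ℝ) * b.1 1 - a.1 1 * b.1 0)|
      ≤ |lf θ a| * (2 / c ^ 2 * (N (xv b) * N (xv w)))
        + |lf θ b| * (2 / c ^ 2 * (N (xv a) * N (xv w)))
        + |lf θ w| * (2 / c ^ 2 * (N (xv a) * N (xv b))) := add_le_add (add_le_add h1 h2) h3
    _ = _ := by ring

namespace Fr

variable {z : ℕ → P2}

lemma lpos (h : Fr N θ z) (k : ℕ) : 0 < lf θ (z k) := (h.best k).1

lemma xpos (h : Fr N θ z) (k : ℕ) : 0 < N (xv (z k)) := by
  induction k with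
  | zero => exact h.pos0
  | succ k ih => exact ih.trans (h.mono k)

lemma xmono (h : Fr N θ z) {j k : ℕ} (hjk : j ≤ k) : N (xv (z j)) ≤ N (xv (z k)) := by
  induction k with
  | zero =>
    obtain rfl : j = 0 := by omega
    exact le_rfl
  | succ k ih =>
    rcases Nat.lt_or_ge k j with h1 | h1
    · obtain rfl : j = k + 1 := by omega
      exact le_rfl
    · exact (ih h1).trans (h.mono k).le

lemma lanti (h : Fr N θ z) {j k : ℕ} (hjk : j ≤ k) : lf θ (z k) ≤ lf θ (z j) := by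
  induction k with
  | zero =>
    obtain rfl : j = 0 := by omega
    exact le_rfl
  | succ k ih =>
    rcases Nat.lt_or_ge k j with h1 | h1
    · obtain rfl : j = k + 1 := by omega
      exact le_rfl
    · exact (h.anti k).le.trans (ih h1)

/-- Lower bound for the area. -/
lemma dd_low (h : Fr N θ z) (k : ℕ) :
    lf θ (z k) * N (xv (z (k + 1))) ≤ 3 * N (dd θ (z k) (z (k + 1))) := by
  have l0 := h.lpos k
  have l1 := h.lpos (k + 1)
  have l01 := h.anti k
  have x0 := h.xpos k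
  have x01 := h.mono k
  rcases le_total (lf θ (z (k + 1))) (2 / 3 * lf θ (z k)) with hc | hc
  · have h1 := map_sub_le_add N (dd θ (z k) (z (k + 1)) + lf θ (z (k + 1)) • xv (z k))
      (lf θ (z (k + 1)) • xv (z k))
    have h2 : N (lf θ (z k) • xv (z (k + 1))) ≤ N (dd θ (z k) (z (k + 1)))
        + N (lf θ (z (k + 1)) • xv (z k)) := by
      have e : lf θ (z k) • xv (z (k + 1)) = dd θ (z k) (z (k + 1))
          + lf θ (z (k + 1)) • xv (z k) := by unfold dd; abel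
      rw [e]; exact map_add_le_add N _ _
    rw [map_smul_eq_mul, map_smul_eq_mul, Real.norm_of_nonneg l0.le, Real.norm_of_nonneg l1.le] at h2
    nlinarith
  · have hw : z (k + 1) - z k ≠ 0 := by
      intro h0
      rw [sub_eq_zero] at h0
      rw [h0] at x01
      exact lt_irrefl _ x01
    have h3 : N (xv (z (k + 1))) ≤ N (xv (z (k + 1) - z k)) := by
      by_contra hcon
      push Not at hcon
      have := h.excl k _ hw hcon
      rw [map_sub, abs_sub_comm, abs_of_pos (by linarith)] at this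
      linarith
    have h4 : lf θ (z (k + 1)) * N (xv (z (k + 1) - z k)) ≤ N (dd θ (z k) (z (k + 1)))
        + (lf θ (z k) - lf θ (z (k + 1))) * N (xv (z (k + 1))) := by
      have e : lf θ (z (k + 1)) • xv (z (k + 1) - z k) = dd θ (z k) (z (k + 1))
          - (lf θ (z k) - lf θ (z (k + 1))) • xv (z (k + 1)) := by
        rw [map_sub xv]; unfold dd; module
      have h5 := map_sub_le_add N (dd θ (z k) (z (k + 1)))
        ((lf θ (z k) - lf θ (z (k + 1))) • xv (z (k + 1)))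
      rw [← e, map_smul_eq_mul, map_smul_eq_mul, Real.norm_of_nonneg l1.le,
        Real.norm_of_nonneg (by linarith)] at h5
      exact h5
    have h6 := mul_le_mul_of_nonneg_left h3 l1.le
    nlinarith

/-- Upper bound for the area. -/
lemma dd_up (h : Fr N θ z) (k : ℕ) :
    N (dd θ (z k) (z (k + 1))) ≤ 2 * (lf θ (z k) * N (xv (z (k + 1)))) := by
  have l0 := h.lpos k
  have l1 := h.lpos (k + 1)
  have l01 := h.anti k
  have x0 := h.xpos k
  have x01 := h.mono k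
  refine (map_sub_le_add N _ _).trans ?_
  rw [map_smul_eq_mul, map_smul_eq_mul, Real.norm_of_nonneg l0.le, Real.norm_of_nonneg l1.le]
  have := mul_le_mul l01.le x01.le x0.le l0.le
  linarith

lemma dd_pos (h : Fr N θ z) (k : ℕ) : 0 < N (dd θ (z k) (z (k + 1))) := by
  have := h.dd_low k
  have h1 := mul_pos (h.lpos k) (h.xpos (k + 1))
  linarith

lemma dd_ne (h : Fr N θ z) (k : ℕ) : dd θ (z k) (z (k + 1)) ≠ 0 := by
  intro h0
  have := h.dd_pos k
  rw [h0, map_zero] at this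
  exact lt_irrefl _ this

/-- The area is constant in a plane. -/
lemma dd_const (h : Fr N θ z) (k : ℕ) (hdet : det3 (z k) (z (k + 1)) (z (k + 2)) = 0) :
    N (dd θ (z (k + 1)) (z (k + 2))) = N (dd θ (z k) (z (k + 1))) := by
  obtain ⟨p, q, h1⟩ := basis (N := N) (h.lpos (k + 1)) (h.anti k) (h.mono k) (h.excl k) (h.dd_ne k)
    hdet
  obtain ⟨p', q', h2⟩ := basis (N := N) (w := z k) (h.lpos (k + 2)) (h.anti (k + 1))
    (h.mono (k + 1)) (h.excl (k + 1)) (h.dd_ne (k + 1)) (by rw [det3_cyc]; exact hdet)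
  have e1 : N (dd θ (z (k + 1)) (z (k + 2))) = |(p : ℝ)| * N (dd θ (z k) (z (k + 1))) := by
    conv_lhs => rw [h1]
    rw [dd_comb_right, map_smul_eq_mul, Real.norm_eq_abs, abs_neg]
  have e2 : N (dd θ (z k) (z (k + 1))) = |(q' : ℝ)| * N (dd θ (z (k + 1)) (z (k + 2))) := by
    conv_lhs => rw [h2]
    rw [dd_comb_left, map_smul_eq_mul, Real.norm_eq_abs, abs_neg]
  have d0 := h.dd_pos k
  have d1 : 0 < N (dd θ (z (k + 1)) (z (k + 2))) := h.dd_pos (k + 1)
  have hp : (1 : ℝ) ≤ |(p : ℝ)| := by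
    have : p ≠ 0 := by
      rintro rfl
      simp at e1
      linarith
    exact_mod_cast Int.one_le_abs this
  have hq : (1 : ℝ) ≤ |(q' : ℝ)| := by
    have : q' ≠ 0 := by
      rintro rfl
      simp at e2
      linarith
    exact_mod_cast Int.one_le_abs this
  apply le_antisymm
  · nlinarith
  · nlinarith

/-- **Growth.** -/
theorem growth (h : Fr N θ z) (hN : IsNorm N) {t c : ℝ} (ht : 1 ≤ t) (hc : 0 < c)
    (hdecay : ∀ k K, c * t ^ K * lf θ (z (k + K)) ≤ lf θ (z k)) :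
    ∃ κ : ℝ, 0 < κ ∧ ∀ k, κ * t ^ k ≤ N (xv (z (k + 1))) ^ 2 := by
  obtain ⟨C, hC, hdet⟩ := det3_le hN
  have ht0 : 0 < t := by linarith
  -- independent triples
  have hind : ∀ k, det3 (z k) (z (k + 1)) (z (k + 2)) ≠ 0 →
      1 ≤ 3 * C * lf θ (z k) * N (xv (z (k + 2))) ^ 2 := by
    intro k hk
    have h1 : (1 : ℝ) ≤ |(det3 (z k) (z (k + 1)) (z (k + 2)) : ℝ)| := by
      exact_mod_cast Int.one_le_abs hk
    have h2 := hdet θ (z k) (z (k + 1)) (z (k + 2))
    have l0 := h.lpos k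
    have l1 := h.lpos (k + 1)
    have l2 := h.lpos (k + 2)
    have l01 := h.anti k
    have l12 := h.anti (k + 1)
    have x0 := h.xpos k
    have x1 := h.xpos (k + 1)
    have x01 := h.mono k
    have x12 := h.mono (k + 1)
    rw [abs_of_pos l0, abs_of_pos l1, abs_of_pos l2] at h2
    set X := N (xv (z (k + 2))) with hX
    have hX0 : 0 < X := h.xpos (k + 2)
    have e1 : lf θ (z k) * (N (xv (z (k + 1))) * X) ≤ lf θ (z k) * X ^ 2 := by
      refine mul_le_mul_of_nonneg_left ?_ l0.le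
      rw [pow_two]
      exact mul_le_mul_of_nonneg_right x12.le hX0.le
    have e2 : lf θ (z (k + 1)) * (N (xv (z k)) * X) ≤ lf θ (z k) * X ^ 2 := by
      refine mul_le_mul l01.le ?_ (by positivity) l0.le
      rw [pow_two]
      exact mul_le_mul_of_nonneg_right (x01.le.trans x12.le) hX0.le
    have e3 : lf θ (z (k + 2)) * (N (xv (z k)) * N (xv (z (k + 1)))) ≤ lf θ (z k) * X ^ 2 := by
      refine mul_le_mul (l12.le.trans l01.le) ?_ (by positivity) l0.le
      rw [pow_two]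
      exact mul_le_mul (x01.le.trans x12.le) x12.le x1.le hX0.le
    have e4 := mul_le_mul_of_nonneg_left (add_le_add (add_le_add e1 e2) e3) hC.le
    linarith
  -- the stretch
  have hst : ∀ k, ∃ j, j ≤ k ∧ N (dd θ (z k) (z (k + 1))) = N (dd θ (z j) (z (j + 1))) ∧
      (j = 0 ∨ ∃ i, j = i + 1 ∧ 1 ≤ 3 * C * lf θ (z i) * N (xv (z (i + 2))) ^ 2) := by
    intro k
    induction k with
    | zero => exact ⟨0, le_rfl, rfl, Or.inl rfl⟩
    | succ k ih =>
      by_cases hd : det3 (z k) (z (k + 1)) (z (k + 2)) = 0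
      · obtain ⟨j, hj1, hj2, hj3⟩ := ih
        exact ⟨j, by omega, (h.dd_const k hd).trans hj2, hj3⟩
      · exact ⟨k + 1, le_rfl, rfl, Or.inr ⟨k, rfl, hind k hd⟩⟩
  have L0 := h.lpos 0
  have X1 := h.xpos 1
  set κ1 : ℝ := (c / 6 * N (xv (z 1))) ^ 2 with hκ1
  set κ2 : ℝ := c ^ 3 / (108 * C * lf θ (z 0) * t) with hκ2
  have hκ1' : 0 < κ1 := by positivity
  have hκ2' : 0 < κ2 := by positivity
  refine ⟨min κ1 κ2, lt_min hκ1' hκ2', fun k => ?_⟩
  have htk : 0 < t ^ k := by positivity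
  obtain ⟨j, hj1, hj2, hj3⟩ := hst k
  obtain ⟨r, rfl⟩ : ∃ r, k = j + r := ⟨k - j, by omega⟩
  have lk := h.lpos (j + r)
  have lj := h.lpos j
  have xk := h.xpos (j + r + 1)
  have xj := h.xpos (j + 1)
  have h1 : lf θ (z j) * N (xv (z (j + 1))) ≤ 6 * (lf θ (z (j + r)) * N (xv (z (j + r + 1)))) := by
    have a1 := h.dd_low j
    have a2 := h.dd_up (j + r)
    rw [hj2] at a2
    linarith
  have h2 := hdecay j r
  have h3 : c * t ^ r * N (xv (z (j + 1))) ≤ 6 * N (xv (z (j + r + 1))) := by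
    have a1 : c * t ^ r * lf θ (z (j + r)) * N (xv (z (j + 1)))
        ≤ lf θ (z j) * N (xv (z (j + 1))) := mul_le_mul_of_nonneg_right h2 xj.le
    have a2 : lf θ (z (j + r)) * (c * t ^ r * N (xv (z (j + 1))))
        ≤ lf θ (z (j + r)) * (6 * N (xv (z (j + r + 1)))) := by linarith
    exact le_of_mul_le_mul_left a2 lk
  have h4 : (c / 6 * N (xv (z (j + 1)))) ^ 2 * t ^ (2 * r) ≤ N (xv (z (j + r + 1))) ^ 2 := by
    have a1 : c / 6 * N (xv (z (j + 1))) * t ^ r ≤ N (xv (z (j + r + 1))) := by linarith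
    have a2 := pow_le_pow_left₀ (by positivity) a1 2
    rw [mul_pow, ← pow_mul, mul_comm r 2] at a2
    exact a2
  refine le_trans ?_ h4
  rcases hj3 with rfl | ⟨i, rfl, hi⟩
  · have a1 : t ^ (0 + r) ≤ t ^ (2 * r) := pow_le_pow_right₀ ht (by omega)
    calc min κ1 κ2 * t ^ (0 + r) ≤ κ1 * t ^ (2 * r) :=
          mul_le_mul (min_le_left _ _) a1 htk.le hκ1'.le
      _ = _ := by rw [hκ1]
  · have a1 := hdecay 0 i
    rw [zero_add] at a1
    have li := h.lpos i
    have xi := h.xpos (i + 2)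
    have a2 : c * t ^ i ≤ 3 * C * lf θ (z 0) * N (xv (z (i + 2))) ^ 2 := by
      have b1 : c * t ^ i * 1 ≤ c * t ^ i * (3 * C * lf θ (z i) * N (xv (z (i + 2))) ^ 2) :=
        mul_le_mul_of_nonneg_left hi (by positivity)
      have b2 : c * t ^ i * lf θ (z i) * (3 * C * N (xv (z (i + 2))) ^ 2)
          ≤ lf θ (z 0) * (3 * C * N (xv (z (i + 2))) ^ 2) :=
        mul_le_mul_of_nonneg_right a1 (by positivity)
      linarith
    have a3 : κ2 * t ^ (i + 1) ≤ (c / 6 * N (xv (z (i + 1 + 1)))) ^ 2 := by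
      have e : (c / 6 * N (xv (z (i + 1 + 1)))) ^ 2 = c ^ 2 / 36 * N (xv (z (i + 2))) ^ 2 := by
        rw [mul_pow]; ring_nf
      rw [e, hκ2, div_mul_eq_mul_div, div_le_iff₀ (by positivity), pow_succ t i]
      have b1 := mul_le_mul_of_nonneg_left a2 (by positivity : 0 ≤ c ^ 2 * t)
      nlinarith
    have a4 : t ^ (i + 1 + r) ≤ t ^ (i + 1) * t ^ (2 * r) := by
      rw [← pow_add]; exact pow_le_pow_right₀ ht (by omega)
    calc min κ1 κ2 * t ^ (i + 1 + r) ≤ κ2 * (t ^ (i + 1) * t ^ (2 * r)) :=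
          mul_le_mul (min_le_right _ _) a4 htk.le hκ2'.le
      _ = κ2 * t ^ (i + 1) * t ^ (2 * r) := by ring
      _ ≤ _ := mul_le_mul_of_nonneg_right a3 (by positivity)

end Fr

end Pool.Agent.Work.MP_7453a1_nt_two
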