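import Pool.Agent.Work.MP_7453a1_nt_two.Pert

set_option autoImplicit false

/-!
Decay of the errors for one linear form in two variables.
-/

namespace Pool.Agent.Work.MP_7453a1_nt_two

open Pool.Agent.Work.MP_7453a1_nt_norm Filter Topology

variable {N : Seminorm ℝ V} {θ : V}

lemma coord_le (w : P2) (j : Fin 2) : |(w.1 j : ℝ)| ≤ ‖xv w‖ := by
  rw [← Real.norm_eq_abs]
  exact norm_le_pi_norm (xv w) j

/-- Finitely many points have a bounded vector `x` and a bounded error. -/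
lemma finite_small (hN : IsNorm N) (θ : V) (R1 R2 : ℝ) :
    {w : P2 | N (xv w) ≤ R2 ∧ |lf θ w| ≤ R1}.Finite := by
  obtain ⟨c, hc, hlow⟩ := lower hN
  set B : ℝ := R2 / c with hB
  set B' : ℝ := |θ 0| * B + |θ 1| * B + R1 with hB'
  refine ((Set.finite_Icc (fun _ : Fin 2 => -⌈B⌉) (fun _ => ⌈B⌉)).prod
    (Set.finite_Icc (-⌈B'⌉) ⌈B'⌉)).subset ?_
  rintro w ⟨h1, h2⟩
  have h3 : ∀ j, |(w.1 j : ℝ)| ≤ B := by
    intro j
    rw [hB, le_div_iff₀ hc]
    have := hlow (xv w)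
    have h4 := coord_le w j
    nlinarith
  have h4 : ∀ j, |w.1 j| ≤ ⌈B⌉ := by
    intro j
    have := (h3 j).trans (Int.le_ceil B)
    exact_mod_cast this
  have h5 : |(w.2 : ℝ)| ≤ B' := by
    have e : (w.2 : ℝ) = θ 0 * w.1 0 + θ 1 * w.1 1 - lf θ w := by rw [lf_apply]; ring
    rw [e, hB']
    calc |θ 0 * w.1 0 + θ 1 * w.1 1 - lf θ w| ≤ |θ 0 * w.1 0 + θ 1 * w.1 1| + |lf θ w| :=
          abs_sub _ _
      _ ≤ |θ 0 * w.1 0| + |θ 1 * w.1 1| + |lf θ w| := by
          have := abs_add_le (θ 0 * (w.1 0 : ℝ)) (θ 1 * w.1 1)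
          linarith
      _ ≤ _ := by
          rw [abs_mul, abs_mul]
          have h6 := mul_le_mul_of_nonneg_left (h3 0) (abs_nonneg (θ 0))
          have h7 := mul_le_mul_of_nonneg_left (h3 1) (abs_nonneg (θ 1))
          linarith
  have h6 : |w.2| ≤ ⌈B'⌉ := by
    have := h5.trans (Int.le_ceil B')
    exact_mod_cast this
  refine ⟨⟨fun j => (abs_le.mp (h4 j)).1, fun j => (abs_le.mp (h4 j)).2⟩,
    (abs_le.mp h6).1, (abs_le.mp h6).2⟩

/-- The numerators. -/
noncomputable def qn (θ : V) (b : ℕ) (w : P2) : ℤ :=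
  round (θ 0 * b) * w.1 0 + round (θ 1 * b) * w.1 1 - b * w.2

/-- The approximating linear form. -/
noncomputable def ln (θ : V) (b : ℕ) (w : P2) : ℝ := (qn θ b w : ℝ) / b

/-- The approximating vector. -/
noncomputable def xn (θ : V) (b : ℕ) (e : ℝ) (w : P2) : V := xv w + ln θ b w • ![0, e]

lemma ln_sub (θ : V) {b n : ℕ} (hb : n + 1 ≤ b) (w : P2) :
    |ln θ b w - lf θ w| ≤ (|(w.1 0 : ℝ)| + |(w.1 1 : ℝ)|) / (n + 1) := by
  have hb0 : (0 : ℝ) < b := by
    have : 0 < b := by omega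
    exact_mod_cast this
  have hn0 : (0 : ℝ) < (n : ℝ) + 1 := by positivity
  have hbn : (n : ℝ) + 1 ≤ b := by exact_mod_cast hb
  have e : ln θ b w - lf θ w = ((round (θ 0 * b) - θ 0 * b) * w.1 0
      + (round (θ 1 * b) - θ 1 * b) * w.1 1) / b := by
    unfold ln qn
    rw [lf_apply]
    push_cast
    field_simp
    ring
  rw [e, abs_div, abs_of_pos hb0]
  have h1 : |(round (θ 0 * b) : ℝ) - θ 0 * b| ≤ 1 / 2 := by
    rw [abs_sub_comm]; exact abs_sub_round _
  have h2 : |(round (θ 1 * b) : ℝ) - θ 1 * b| ≤ 1 / 2 := by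
    rw [abs_sub_comm]; exact abs_sub_round _
  have h3 : |((round (θ 0 * b) : ℝ) - θ 0 * b) * w.1 0 + ((round (θ 1 * b) : ℝ) - θ 1 * b) * w.1 1|
      ≤ |(w.1 0 : ℝ)| + |(w.1 1 : ℝ)| := by
    refine (abs_add_le _ _).trans ?_
    rw [abs_mul, abs_mul]
    have h4 := mul_le_mul_of_nonneg_right h1 (abs_nonneg (w.1 0 : ℝ))
    have h5 := mul_le_mul_of_nonneg_right h2 (abs_nonneg (w.1 1 : ℝ))
    have h6 := abs_nonneg (w.1 0 : ℝ)
    have h7 := abs_nonneg (w.1 1 : ℝ)
    linarith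
  exact div_le_div₀ (by positivity) h3 hn0 hbn

lemma tendsto_inv_nat (C : ℝ) : Tendsto (fun n : ℕ => C / ((n : ℝ) + 1)) atTop (𝓝 0) := by
  have h := tendsto_one_div_add_atTop_nhds_zero_nat (𝕜 := ℝ)
  have h2 := h.const_mul C
  rw [mul_zero] at h2
  refine h2.congr fun n => ?_
  ring

variable {b : ℕ → ℕ}

lemma tendsto_ln (θ : V) (hb : ∀ n, n + 1 ≤ b n) (w : P2) :
    Tendsto (fun n => ln θ (b n) w) atTop (𝓝 (lf θ w)) := by
  have h1 : Tendsto (fun n => ln θ (b n) w - lf θ w) atTop (𝓝 0) := by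
    refine squeeze_zero_norm (fun n => ?_) (tendsto_inv_nat (|(w.1 0 : ℝ)| + |(w.1 1 : ℝ)|))
    rw [Real.norm_eq_abs]
    exact ln_sub θ (hb n) w
  have h2 := h1.add_const (lf θ w)
  simpa using h2

/-- The shift. -/
noncomputable def sh (n : ℕ) : ℝ := Real.sqrt 2 / ((n : ℝ) + 1)

lemma sh_nonneg (n : ℕ) : 0 ≤ sh n := by unfold sh; positivity

lemma N_sh (N : Seminorm ℝ V) (e : ℝ) (he : 0 ≤ e) (l : ℝ) :
    N (l • ![0, e]) = |l| * (e * N ![0, 1]) := by
  have h1 : (![0, e] : V) = e • ![0, 1] := by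
    ext i; fin_cases i <;> simp
  rw [map_smul_eq_mul, h1, map_smul_eq_mul, Real.norm_eq_abs, Real.norm_of_nonneg he]

lemma tendsto_xn (N : Seminorm ℝ V) (θ : V) (hb : ∀ n, n + 1 ≤ b n) (w : P2) :
    Tendsto (fun n => N (xn θ (b n) (sh n) w)) atTop (𝓝 (N (xv w))) := by
  have h1 : Tendsto (fun n => |ln θ (b n) w| * (sh n * N ![0, 1])) atTop (𝓝 0) := by
    have h2 := (tendsto_ln θ hb w).abs
    have h3 : Tendsto (fun n => sh n * N ![0, 1]) atTop (𝓝 0) := by
      have := (tendsto_inv_nat (Real.sqrt 2)).mul_const (N ![0, 1])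
      rw [zero_mul] at this
      exact this
    have := h2.mul h3
    rw [mul_zero] at this
    exact this
  have h2 : Tendsto (fun n => N (xn θ (b n) (sh n) w) - N (xv w)) atTop (𝓝 0) := by
    refine squeeze_zero_norm (fun n => ?_) h1
    rw [Real.norm_eq_abs]
    refine (abs_sub_map_le_sub N _ _).trans ?_
    unfold xn
    rw [add_sub_cancel_left, N_sh N (sh n) (sh_nonneg n)]
  have h3 := h2.add_const (N (xv w))
  simpa using h3

/-- Uniform control of small points. -/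
lemma unif (hN : IsNorm N) (θ : V) (hb : ∀ n, n + 1 ≤ b n) {R1 R2 : ℝ} (hR1 : 0 ≤ R1) :
    ∀ᶠ n in atTop, ∀ w : P2, |ln θ (b n) w| ≤ R1 → N (xn θ (b n) (sh n) w) ≤ R2 →
      N (xv w) ≤ R2 + 1 ∧ |lf θ w| ≤ R1 + 1 := by
  obtain ⟨c, hc, hlow⟩ := lower hN
  have h1 : ∀ᶠ n : ℕ in atTop, R1 * (sh n * N ![0, 1]) ≤ 1 := by
    have h3 : Tendsto (fun n => R1 * (sh n * N ![0, 1])) atTop (𝓝 0) := by
      have := ((tendsto_inv_nat (Real.sqrt 2)).mul_const (N ![0, 1])).const_mul R1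
      rw [zero_mul, mul_zero] at this
      exact this
    exact (h3.eventually_lt_const one_pos).mono fun n hn => hn.le
  have h2 : ∀ᶠ n : ℕ in atTop, (2 * ((R2 + 1) / c)) / ((n : ℝ) + 1) ≤ 1 :=
    ((tendsto_inv_nat _).eventually_lt_const one_pos).mono fun n hn => hn.le
  filter_upwards [h1, h2] with n hn1 hn2 w hw1 hw2
  have h3 : N (xv w) ≤ R2 + 1 := by
    have h4 : xv w = xn θ (b n) (sh n) w - ln θ (b n) w • ![0, sh n] := by
      unfold xn; rw [add_sub_cancel_right]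
    rw [h4]
    refine (map_sub_le_add N _ _).trans ?_
    rw [N_sh N (sh n) (sh_nonneg n)]
    have h5 : |ln θ (b n) w| * (sh n * N ![0, 1]) ≤ R1 * (sh n * N ![0, 1]) :=
      mul_le_mul_of_nonneg_right hw1 (mul_nonneg (sh_nonneg n) (apply_nonneg N _))
    linarith
  refine ⟨h3, ?_⟩
  have h4 : ∀ j, |(w.1 j : ℝ)| ≤ (R2 + 1) / c := by
    intro j
    rw [le_div_iff₀ hc]
    have := hlow (xv w)
    have h5 := coord_le w j
    nlinarith
  have h5 := ln_sub θ (hb n) w
  have h6 : (|(w.1 0 : ℝ)| + |(w.1 1 : ℝ)|) / ((n : ℝ) + 1) ≤ 1 := by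
    refine le_trans ?_ hn2
    refine div_le_div_of_nonneg_right ?_ (by positivity)
    linarith [h4 0, h4 1]
  have h7 : |lf θ w| ≤ |ln θ (b n) w| + |ln θ (b n) w - lf θ w| := by
    have := abs_sub_abs_le_abs_sub (lf θ w) (ln θ (b n) w)
    rw [abs_sub_comm] at this
    linarith
  linarith

/-- Best approximation points persist. -/
lemma persist (hN : IsNorm N) (θ : V) (hb : ∀ n, n + 1 ≤ b n) {z : P2} (hz : Best2 N θ z) :
    ∀ᶠ n in atTop, ∀ w : P2, |ln θ (b n) w| ≤ ln θ (b n) z →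
      N (xn θ (b n) (sh n) w) ≤ N (xn θ (b n) (sh n) z) → w = 0 ∨ w = z ∨ w = -z := by
  obtain ⟨hz0, hz1⟩ := hz
  have e1 : ∀ᶠ n in atTop, ln θ (b n) z < lf θ z + 1 :=
    (tendsto_ln θ hb z).eventually_lt_const (by linarith)
  have e2 : ∀ᶠ n in atTop, N (xn θ (b n) (sh n) z) < N (xv z) + 1 :=
    (tendsto_xn N θ hb z).eventually_lt_const (by linarith)
  have e3 := unif (N := N) (R1 := lf θ z + 1) (R2 := N (xv z) + 1) hN θ hb (by linarith)
  have e4 : ∀ᶠ n in atTop, ∀ w ∈ {w : P2 | N (xv w) ≤ N (xv z) + 1 + 1 ∧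
      |lf θ w| ≤ lf θ z + 1 + 1}, |ln θ (b n) w| ≤ ln θ (b n) z →
      N (xn θ (b n) (sh n) w) ≤ N (xn θ (b n) (sh n) z) → w = 0 ∨ w = z ∨ w = -z := by
    rw [Filter.eventually_all_finite (finite_small hN θ _ _)]
    intro w _
    by_cases h : w = 0 ∨ w = z ∨ w = -z
    · exact Eventually.of_forall fun _ _ _ => h
    · rcases lt_or_ge (N (xv z)) (N (xv w)) with h1 | h1
      · filter_upwards [(tendsto_xn N θ hb z).eventually_lt (tendsto_xn N θ hb w) h1]
          with n hn _ h2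
        exact absurd h2 (not_le.mpr hn)
      · have h2 : lf θ z < |lf θ w| := by
          by_contra hcon
          push Not at hcon
          exact h (hz1 w h1 hcon)
        filter_upwards [(tendsto_ln θ hb z).eventually_lt (tendsto_ln θ hb w).abs h2]
          with n hn h3 _
        exact absurd h3 (not_le.mpr hn)
  filter_upwards [e1, e2, e3, e4] with n h1 h2 h3 h4 w hw1 hw2
  exact h4 w (h3 w (hw1.trans h1.le) (hw2.trans h2.le)) hw1 hw2

/-- Points on which the approximating form vanishes are far away. -/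
lemma far (hN : IsNorm N) (hθ : Adm θ) (hb : ∀ n, n + 1 ≤ b n) (z : P2) :
    ∀ᶠ n in atTop, ∀ w : P2, w ≠ 0 → ln θ (b n) w = 0 →
      2 * N (xn θ (b n) (sh n) z) ≤ N (xn θ (b n) (sh n) w) := by
  have e2 : ∀ᶠ n in atTop, N (xn θ (b n) (sh n) z) < N (xv z) + 1 :=
    (tendsto_xn N θ hb z).eventually_lt_const (by linarith)
  have e3 := unif (N := N) (R1 := 0) (R2 := 2 * (N (xv z) + 1)) hN θ hb le_rfl
  have e4 : ∀ᶠ n in atTop, ∀ w ∈ {w : P2 | N (xv w) ≤ 2 * (N (xv z) + 1) + 1 ∧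
      |lf θ w| ≤ 0 + 1}, w ≠ 0 → ln θ (b n) w ≠ 0 := by
    rw [Filter.eventually_all_finite (finite_small hN θ _ _)]
    intro w _
    by_cases h : w = 0
    · exact Eventually.of_forall fun _ h' => absurd h h'
    · have h1 : lf θ w ≠ 0 := fun h0 => h (hθ w h0)
      filter_upwards [(tendsto_ln θ hb w).eventually_ne h1] with n hn _
      exact hn
  filter_upwards [e2, e3, e4] with n h2 h3 h4 w hw hw0
  by_contra hcon
  push Not at hcon
  exact h4 w (h3 w (by rw [hw0, abs_zero]) (by linarith)) hw hw0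

lemma coprime_ev (hθ : Adm θ) (hb : ∀ n, n + 1 ≤ b n) (hp : ∀ n, (b n).Prime) :
    ∀ᶠ n in atTop, IsCoprime (round (θ 0 * b n)) ((b n : ℕ) : ℤ) := by
  have h0 : 0 < |θ 0 - round (θ 0)| := by
    rw [abs_pos]
    intro h
    have h1 : lf θ (![1, 0], round (θ 0)) = 0 := by
      rw [lf_apply]
      simp
      linarith
    have h2 := congrFun (congrArg Prod.fst (hθ _ h1)) 0
    simp at h2
  filter_upwards [(tendsto_inv_nat 1).eventually_lt_const h0] with n hn
  have hb0 : (0 : ℝ) < b n := by exact_mod_cast (hp n).pos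
  have hbn : (n : ℝ) + 1 ≤ b n := by exact_mod_cast hb n
  rw [isCoprime_comm, Prime.coprime_iff_not_dvd (Nat.prime_iff_prime_int.mp (hp n))]
  rintro ⟨k, hk⟩
  have h1 : |θ 0 * b n - round (θ 0 * b n)| ≤ 1 / 2 := abs_sub_round _
  rw [hk] at h1
  push_cast at h1
  have h2 : θ 0 * b n - (b n : ℝ) * k = (θ 0 - k) * b n := by ring
  rw [h2, abs_mul, abs_of_pos hb0] at h1
  have h3 : |θ 0 - round (θ 0)| ≤ |θ 0 - k| := round_le _ _
  have h4 : |θ 0 - k| ≤ 1 / ((n : ℝ) + 1) := by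
    rw [le_div_iff₀ (by positivity)]
    have h5 : |θ 0 - k| * ((n : ℝ) + 1) ≤ |θ 0 - k| * b n :=
      mul_le_mul_of_nonneg_left hbn (abs_nonneg _)
    linarith
  linarith

/-- **Decay.** -/
theorem decay (hN : IsNorm N) (hθ : Adm θ) {t c : ℝ} (ht : 1 ≤ t) (hc : 0 < c)
    (hUG : ∀ A : V →ₗ[ℝ] V, Function.Injective A → UG (N.comp A) t c) (z : ℕ → P2) (K : ℕ)
    (hz : ∀ i, i ≤ K → Best2 N θ (z i)) (hdec : ∀ i, i < K → lf θ (z (i + 1)) < lf θ (z i)) :
    c * t ^ K * lf θ (z K) ≤ lf θ (z 0) := by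
  by_contra hcon
  push Not at hcon
  choose b hb hp using fun n : ℕ => Nat.exists_infinite_primes (n + 1)
  have ev1 : ∀ᶠ n in atTop, ln θ (b n) (z 0) < c * t ^ K * ln θ (b n) (z K) :=
    (tendsto_ln θ hb (z 0)).eventually_lt ((tendsto_ln θ hb (z K)).const_mul _) hcon
  have ev2 : ∀ᶠ n in atTop, ∀ i ∈ Set.Iic K, 0 < ln θ (b n) (z i) := by
    rw [Filter.eventually_all_finite (Set.finite_Iic K)]
    intro i hi
    exact (tendsto_ln θ hb (z i)).eventually_const_lt (hz i hi).1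
  have ev3 : ∀ᶠ n in atTop, ∀ i ∈ Set.Iio K, ln θ (b n) (z (i + 1)) < ln θ (b n) (z i) := by
    rw [Filter.eventually_all_finite (Set.finite_Iio K)]
    intro i hi
    exact (tendsto_ln θ hb (z (i + 1))).eventually_lt (tendsto_ln θ hb (z i)) (hdec i hi)
  have ev4 : ∀ᶠ n in atTop, ∀ i ∈ Set.Iic K, ∀ w : P2, |ln θ (b n) w| ≤ ln θ (b n) (z i) →
      N (xn θ (b n) (sh n) w) ≤ N (xn θ (b n) (sh n) (z i)) →
      w = 0 ∨ w = z i ∨ w = -z i := by
    rw [Filter.eventually_all_finite (Set.finite_Iic K)]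
    intro i hi
    exact persist hN θ hb (hz i hi)
  have ev5 := far hN hθ hb (z K)
  have ev6 := coprime_ev hθ hb hp
  obtain ⟨n, h1, h2, h3, h4, h5, ⟨s, r, hsr⟩⟩ :=
    (ev1.and (ev2.and (ev3.and (ev4.and (ev5.and ev6))))).exists
  have hb0 : 0 < b n := (hp n).pos
  have hbR : (0 : ℝ) < b n := by exact_mod_cast hb0
  have hη : Irrational (Real.sqrt 2 / (((b n * (n + 1) : ℕ)) : ℝ)) :=
    irrational_sqrt_two.div_natCast (by positivity)
  obtain ⟨A, Θ', φ, hA, hΘ', hsurj, hφ0, hφneg, hinj, hφ1, hφ2⟩ := transfer (round (θ 0 * b n))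
    (round (θ 1 * b n)) (b n) s r (by exact_mod_cast hb0) (by linarith) _ hη
  have hq : ∀ w, (φ w).1 = qn θ (b n) w := fun w => hφ1 w
  have hqR : ∀ w, ((φ w).1 : ℝ) = b n * ln θ (b n) w := by
    intro w
    rw [hq]
    unfold ln
    field_simp
  have her : ∀ w, er (N.comp A) Θ' (φ w) = N (xn θ (b n) (sh n) w) := by
    intro w
    unfold er
    rw [Seminorm.comp_apply, hφ2 w, hqR]
    congr 1
    unfold xn
    congr 1
    ext i
    fin_cases i
    · simp
    · simp only [Fin.mk_one, Pi.smul_apply, Matrix.cons_val_one, Matrix.cons_val_zero,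
        smul_eq_mul, sh]
      push_cast
      field_simp
  have hN' : IsNorm (N.comp A) := by
    intro x hx
    rw [Seminorm.comp_apply] at hx
    have h6 := hN _ hx
    rw [← map_zero A] at h6
    exact hA h6
  have hbest : ∀ i, i ≤ K → BestPt (N.comp A) Θ' (φ (z i)) := by
    intro i hi
    refine ⟨?_, ?_⟩
    · have h6 : (0 : ℝ) < ((φ (z i)).1 : ℝ) := by
        rw [hqR]
        exact mul_pos hbR (h2 i hi)
      exact_mod_cast h6
    · intro w' hw1 hw2
      obtain ⟨w, rfl⟩ := hsurj w'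
      have h7 : |ln θ (b n) w| ≤ ln θ (b n) (z i) := by
        have h8 : |((φ w).1 : ℝ)| ≤ ((φ (z i)).1 : ℝ) := by exact_mod_cast hw1
        rw [hqR, hqR, abs_mul, abs_of_pos hbR] at h8
        exact le_of_mul_le_mul_left h8 hbR
      rw [her, her] at hw2
      rcases h4 i hi w h7 hw2 with h8 | h8 | h8
      · left; rw [h8, hφ0]
      · right; left; rw [h8]
      · right; right; rw [h8, hφneg]
  have hfin := (hUG A hA).chain ht hc hN' hΘ' (fun i => φ (z (K - i))) K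
    (fun i hi => hbest _ (by omega)) (by
      intro i hi
      have h6 : ((φ (z (K - i))).1 : ℝ) < ((φ (z (K - (i + 1)))).1 : ℝ) := by
        rw [hqR, hqR]
        have h7 := h3 (K - (i + 1)) (by simp; omega)
        rw [show K - (i + 1) + 1 = K - i by omega] at h7
        exact mul_lt_mul_of_pos_left h7 hbR
      exact_mod_cast h6) (by
      intro p hp0
      simp only [Nat.sub_zero]
      obtain ⟨w, hw⟩ := hsurj (0, p)
      have h6 : w ≠ 0 := by
        rintro rfl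
        rw [hφ0] at hw
        exact hp0 (congrArg Prod.snd hw).symm
      have h7 : ln θ (b n) w = 0 := by
        have h8 := hqR w
        rw [hw] at h8
        simp only [Int.cast_zero] at h8
        rcases mul_eq_zero.mp h8.symm with h9 | h9
        · exact absurd h9 hbR.ne'
        · exact h9
      have h8 := h5 w h6 h7
      rw [← her, ← her, hw] at h8
      refine h8.trans (le_of_eq ?_)
      rw [← er_neg]
      unfold er
      congr 1
      ext i
      simp [ev])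
  simp only [Nat.sub_zero, Nat.sub_self] at hfin
  rw [hqR, hqR] at hfin
  have h9 : (b n : ℝ) * ln θ (b n) (z 0) < b n * (c * t ^ K * ln θ (b n) (z K)) :=
    mul_lt_mul_of_pos_left h1 hbR
  linarith

end Pool.Agent.Work.MP_7453a1_nt_two
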