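import Pool.Agent.Work.MP_7453a1_nt_norm.Defs

set_option autoImplicit false

/-!
Best approximation vectors for arbitrary `m, n` and arbitrary norms on `ℝᵐ` and `ℝⁿ`.
-/

namespace Pool.Agent.Work.MP_7453a1_nt_two

open Filter
open scoped ENNReal

variable {m n : ℕ}

/-- The length `|x|` of the integer vector `x ∈ ℤᵐ`. -/
noncomputable def len (Nm : Seminorm ℝ (Fin m → ℝ)) (x : Fin m → ℤ) : ℝ :=
  Nm (fun j => (x j : ℝ))

/-- The length `|Θ x - y|` of the error vector, for a real `n × m` matrix `Θ`. -/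
noncomputable def err (Nn : Seminorm ℝ (Fin n → ℝ)) (Θ : Matrix (Fin n) (Fin m) ℝ)
    (x : Fin m → ℤ) (y : Fin n → ℤ) : ℝ :=
  Nn (fun i => (∑ j, Θ i j * x j) - y i)

/-- Condition (∗): `Θ x` is not an integer vector for any nonzero integer vector `x`. -/
def Admissible (Θ : Matrix (Fin n) (Fin m) ℝ) : Prop :=
  ∀ x : Fin m → ℤ, x ≠ 0 → ∀ y : Fin n → ℤ, ∃ i, (∑ j, Θ i j * x j) ≠ y i

/-- `(x, y)` with `x ≠ 0` is a best approximation vector: the only integer points `(x', y')` with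
`|x'| ≤ |x|` and `|Θ x' - y'| ≤ |Θ x - y|` are `0` and `±(x, y)`. -/
def IsBest (Nm : Seminorm ℝ (Fin m → ℝ)) (Nn : Seminorm ℝ (Fin n → ℝ))
    (Θ : Matrix (Fin n) (Fin m) ℝ) (x : Fin m → ℤ) (y : Fin n → ℤ) : Prop :=
  x ≠ 0 ∧ ∀ (x' : Fin m → ℤ) (y' : Fin n → ℤ), len Nm x' ≤ len Nm x →
    err Nn Θ x' y' ≤ err Nn Θ x y →
    (x' = 0 ∧ y' = 0) ∨ (x' = x ∧ y' = y) ∨ (x' = -x ∧ y' = -y)

/-- The set of the lengths `|x|` of the best approximation vectors `(x, y)`. -/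
def Lengths (Nm : Seminorm ℝ (Fin m → ℝ)) (Nn : Seminorm ℝ (Fin n → ℝ))
    (Θ : Matrix (Fin n) (Fin m) ℝ) : Set ℝ :=
  {r | ∃ (x : Fin m → ℤ) (y : Fin n → ℤ), IsBest Nm Nn Θ x y ∧ len Nm x = r}

/-- `M_ν`, `ν = 1, 2, …`: the lengths of the best approximation vectors in increasing order:
`M_{ν+1}` is the smallest length greater than `M_ν` (and `M_0 = 0`). -/
noncomputable def M (Nm : Seminorm ℝ (Fin m → ℝ)) (Nn : Seminorm ℝ (Fin n → ℝ))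
    (Θ : Matrix (Fin n) (Fin m) ℝ) : ℕ → ℝ
  | 0 => 0
  | ν + 1 => sInf {r | r ∈ Lengths Nm Nn Θ ∧ M Nm Nn Θ ν < r}

/-- `G(Θ) = liminf M_ν ^ (1/ν)`. -/
noncomputable def G (Nm : Seminorm ℝ (Fin m → ℝ)) (Nn : Seminorm ℝ (Fin n → ℝ))
    (Θ : Matrix (Fin n) (Fin m) ℝ) : ℝ≥0∞ :=
  liminf (fun ν : ℕ => ENNReal.ofReal (M Nm Nn Θ ν ^ (1 / (ν : ℝ)))) atTop

/-- `g = inf G(Θ)` over all real `n × m` matrices `Θ` satisfying (∗). -/
noncomputable def g (Nm : Seminorm ℝ (Fin m → ℝ)) (Nn : Seminorm ℝ (Fin n → ℝ)) : ℝ≥0∞ :=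
  ⨅ (Θ : Matrix (Fin n) (Fin m) ℝ) (_ : Admissible Θ), G Nm Nn Θ

end Pool.Agent.Work.MP_7453a1_nt_two
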