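import Pool.Agent.Work.MP_7453a1_nt_two.Unif

set_option autoImplicit false

/-!
Time reversal: the errors of the best approximation points of a linear form in two variables
are approximated by the denominators of best simultaneous approximations.
-/

namespace Pool.Agent.Work.MP_7453a1_nt_two

open Pool.Agent.Work.MP_7453a1_nt_norm Filter Topology

/-- Points `(x, y)`, `x ∈ ℤ²`, `y ∈ ℤ`. -/
abbrev P2 : Type := (Fin 2 → ℤ) × ℤ

/-- The linear form. -/
noncomputable def lf (θ : V) : P2 →+ ℝ :=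
  AddMonoidHom.mk' (fun w => θ 0 * w.1 0 + θ 1 * w.1 1 - w.2)
    (by intro a b; simp only [Prod.fst_add, Prod.snd_add, Pi.add_apply]; push_cast; ring)

/-- The vector `x`. -/
noncomputable def xv : P2 →+ V :=
  AddMonoidHom.mk' (fun w j => (w.1 j : ℝ))
    (by intro a b; ext i; simp)

lemma lf_apply (θ : V) (w : P2) : lf θ w = θ 0 * w.1 0 + θ 1 * w.1 1 - w.2 := rfl

lemma xv_apply (w : P2) : xv w = ![(w.1 0 : ℝ), (w.1 1 : ℝ)] := by
  ext i; fin_cases i <;> rfl

/-- Condition (∗). -/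
def Adm (θ : V) : Prop := ∀ w : P2, lf θ w = 0 → w = 0

/-- Best approximation points with positive error. -/
def Best2 (N : Seminorm ℝ V) (θ : V) (z : P2) : Prop :=
  0 < lf θ z ∧ ∀ w : P2, N (xv w) ≤ N (xv z) → |lf θ w| ≤ lf θ z → w = 0 ∨ w = z ∨ w = -z

/-- The unimodular change of basis. -/
theorem transfer (a1 a2 b s r : ℤ) (hb : 0 < b) (hbez : a1 * s + b * r = 1) (η : ℝ)
    (hη : Irrational η) : ∃ (A : V →ₗ[ℝ] V) (Θ' : V) (φ : P2 → Pt 2), Function.Injective A ∧
      Admissible Θ' ∧ Function.Surjective φ ∧ φ 0 = 0 ∧ (∀ w, φ (-w) = -φ w) ∧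
      Function.Injective φ ∧
      (∀ w, (φ w).1 = a1 * w.1 0 + a2 * w.1 1 - b * w.2) ∧
      ∀ w, A (ev Θ' (φ w)) = xv w + ((φ w).1 : ℝ) • ![0, η] := by
  have hbR : (0 : ℝ) < (b : ℝ) := by exact_mod_cast hb
  have hbezR : (a1 : ℝ) * s + b * r = 1 := by exact_mod_cast hbez
  let A : V →ₗ[ℝ] V :=
    { toFun := fun v => ![-(b : ℝ) * v 0 + s * a2 * v 1, -v 1]
      map_add' := by
        intro u v
        ext i
        fin_cases i
        · simp; ring
        · simp; ring
      map_smul' := by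
        intro c v
        ext i
        fin_cases i
        · simp; ring
        · simp }
  have hA : ∀ v, A v = ![-(b : ℝ) * v 0 + s * a2 * v 1, -v 1] := fun v => rfl
  let Θ' : V := ![-(s + s * a2 * η) / b, -η]
  let φ : P2 → Pt 2 := fun w =>
    (a1 * w.1 0 + a2 * w.1 1 - b * w.2, ![r * w.1 0 + s * w.2, w.1 1])
  refine ⟨A, Θ', φ, ?_, ?_, ?_, ?_, ?_, ?_, fun w => rfl, ?_⟩
  · intro u v h
    rw [hA, hA] at h
    have h0 := congrFun h 0
    have h1 := congrFun h 1
    simp only [Matrix.cons_val_zero, Matrix.cons_val_one] at h0 h1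
    have e1 : u 1 = v 1 := by linarith
    have e0 : u 0 = v 0 := by
      rw [e1] at h0
      have : (b : ℝ) * u 0 = b * v 0 := by linarith
      exact mul_left_cancel₀ hbR.ne' this
    ext i
    fin_cases i
    · exact e0
    · exact e1
  · intro q hq p
    refine ⟨1, fun h => ?_⟩
    have h1 : (q : ℝ) * (-η) = p 1 := h
    have h2 : η = ((-(p 1) : ℤ) : ℝ) / ((q : ℤ) : ℝ) := by
      have hq' : (q : ℝ) ≠ 0 := by exact_mod_cast hq
      rw [eq_div_iff hq']
      push_cast
      linarith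
    apply hη
    refine ⟨((-(p 1) : ℤ) : ℚ) / (q : ℚ), ?_⟩
    rw [h2]
    push_cast
    rfl
  · rintro ⟨q, p⟩
    refine ⟨(![s * (q - a2 * p 1) + b * p 0, p 1], -r * (q - a2 * p 1) + a1 * p 0), ?_⟩
    refine Prod.ext ?_ ?_
    · show a1 * (s * (q - a2 * p 1) + b * p 0) + a2 * p 1 - b * (-r * (q - a2 * p 1) + a1 * p 0) = q
      linear_combination (q - a2 * p 1) * hbez
    · ext i
      fin_cases i
      · show r * (s * (q - a2 * p 1) + b * p 0) + s * (-r * (q - a2 * p 1) + a1 * p 0) = p 0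
        linear_combination p 0 * hbez
      · rfl
  · refine Prod.ext ?_ ?_
    · show a1 * 0 + a2 * 0 - b * 0 = (0 : ℤ)
      ring
    · ext i
      fin_cases i
      · show r * 0 + s * 0 = (0 : ℤ)
        ring
      · rfl
  · intro w
    refine Prod.ext ?_ ?_
    · show a1 * (-w.1 0) + a2 * (-w.1 1) - b * (-w.2) = -(a1 * w.1 0 + a2 * w.1 1 - b * w.2)
      ring
    · ext i
      fin_cases i
      · show r * (-w.1 0) + s * (-w.2) = -(r * w.1 0 + s * w.2)
        ring
      · rfl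
  · intro u v h
    have h0 : a1 * u.1 0 + a2 * u.1 1 - b * u.2 = a1 * v.1 0 + a2 * v.1 1 - b * v.2 :=
      congrArg Prod.fst h
    have h1 : r * u.1 0 + s * u.2 = r * v.1 0 + s * v.2 := congrFun (congrArg Prod.snd h) 0
    have h2 : u.1 1 = v.1 1 := congrFun (congrArg Prod.snd h) 1
    have e0 : u.1 0 = v.1 0 := by
      have h3 : (a1 * s + b * r) * u.1 0 = (a1 * s + b * r) * v.1 0 := by
        linear_combination s * h0 + b * h1 - s * a2 * h2
      rw [hbez, one_mul, one_mul] at h3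
      exact h3
    have e2 : u.2 = v.2 := by
      have h3 : (a1 * s + b * r) * u.2 = (a1 * s + b * r) * v.2 := by
        linear_combination -r * h0 + a1 * h1 + r * a2 * h2
      rw [hbez, one_mul, one_mul] at h3
      exact h3
    refine Prod.ext ?_ e2
    ext i
    fin_cases i
    · exact e0
    · exact h2
  · intro w
    rw [hA, xv_apply]
    ext i
    fin_cases i
    · show -(b : ℝ) * (((a1 * w.1 0 + a2 * w.1 1 - b * w.2 : ℤ) : ℝ) * (-(s + s * a2 * η) / b)
          - ((r * w.1 0 + s * w.2 : ℤ) : ℝ))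
        + s * a2 * (((a1 * w.1 0 + a2 * w.1 1 - b * w.2 : ℤ) : ℝ) * (-η) - (w.1 1 : ℝ))
        = (w.1 0 : ℝ) + ((a1 * w.1 0 + a2 * w.1 1 - b * w.2 : ℤ) : ℝ) * 0
      push_cast
      field_simp
      linear_combination (w.1 0 : ℝ) * hbezR
    · show -(((a1 * w.1 0 + a2 * w.1 1 - b * w.2 : ℤ) : ℝ) * (-η) - (w.1 1 : ℝ))
        = (w.1 1 : ℝ) + ((a1 * w.1 0 + a2 * w.1 1 - b * w.2 : ℤ) : ℝ) * η
      ring

end Pool.Agent.Work.MP_7453a1_nt_two
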