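import Pool.Agent.Work.MP_7453a1_nt_two.Area
import Pool.Agent.Work.MP_7453a1_nt_two.Defs

set_option autoImplicit false

/-!
The sequence of best approximation points of one linear form in two variables.
-/

namespace Pool.Agent.Work.MP_7453a1_nt_two

open Pool.Agent.Work.MP_7453a1_nt_norm (IsNorm lower)
open Filter Topology
open scoped ENNReal

variable {N : Seminorm ℝ V} {θ : V}

lemma lf_inj (hθ : Adm θ) {u w : P2} (h : |lf θ u| = |lf θ w|) : u = w ∨ u = -w := by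
  rcases abs_eq_abs.mp h with h1 | h1
  · left
    have : lf θ (u - w) = 0 := by rw [map_sub, h1, sub_self]
    exact sub_eq_zero.mp (hθ _ this)
  · right
    have : lf θ (u + w) = 0 := by rw [map_add, h1, neg_add_cancel]
    exact eq_neg_of_add_eq_zero_left (hθ _ this)

lemma lf_ne (hθ : Adm θ) {w : P2} (h : w ≠ 0) : lf θ w ≠ 0 := fun h0 => h (hθ w h0)

lemma xv_pos (hN : IsNorm N) {w : P2} (h : w.1 ≠ 0) : 0 < N (xv w) := by
  refine lt_of_le_of_ne (apply_nonneg N _) fun h0 => h ?_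
  have h1 := hN _ h0.symm
  ext j
  have h2 := congrFun h1 j
  have h3 : (w.1 j : ℝ) = 0 := h2
  exact_mod_cast h3

lemma xv_of_fst {u w : P2} (h : u.1 = w.1) : xv u = xv w := by
  rw [xv_apply, xv_apply, h]

lemma zero_of_fst {w : P2} (h : w.1 = 0) (hl : |lf θ w| < 1) : w = 0 := by
  have e : lf θ w = -(w.2 : ℝ) := by rw [lf_apply, h]; simp
  rw [e, abs_neg] at hl
  have h1 : |w.2| < 1 := by exact_mod_cast hl
  have h2 : w.2 = 0 := Int.abs_lt_one_iff.mp h1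
  exact Prod.ext h h2

/-- Every point with nonzero `x` and error less than one is dominated by a best approximation
point. -/
lemma exists_best2 (hN : IsNorm N) (hθ : Adm θ) {w : P2} (hw : w.1 ≠ 0) (hl : |lf θ w| < 1) :
    ∃ u : P2, Best2 N θ u ∧ u.1 ≠ 0 ∧ N (xv u) ≤ N (xv w) ∧ lf θ u ≤ |lf θ w| := by
  set S : Set P2 := {u | u.1 ≠ 0 ∧ N (xv u) ≤ N (xv w) ∧ |lf θ u| ≤ |lf θ w|} with hS
  have hSf : S.Finite := (finite_small hN θ |lf θ w| (N (xv w))).subset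
    (fun u hu => ⟨hu.2.1, hu.2.2⟩)
  have hSn : S.Nonempty := ⟨w, hw, le_rfl, le_rfl⟩
  obtain ⟨m1, hm1, hmin1⟩ := Set.exists_min_image S (fun u => N (xv u)) hSf hSn
  set S' : Set P2 := {u | u ∈ S ∧ N (xv u) ≤ N (xv m1)} with hS'
  obtain ⟨m2, hm2, hmin2⟩ := Set.exists_min_image S' (fun u => |lf θ u|)
    (hSf.subset fun u hu => hu.1) ⟨m1, hm1, le_rfl⟩
  obtain ⟨⟨a1, a2, a3⟩, a4⟩ := hm2
  have key : ∀ u : P2, N (xv u) ≤ N (xv m2) → |lf θ u| ≤ |lf θ m2| → u = 0 ∨ u = m2 ∨ u = -m2 := by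
    intro u h1 h2
    by_cases hu : u.1 = 0
    · left
      exact zero_of_fst hu (lt_of_le_of_lt (h2.trans a3) hl)
    · right
      have h3 : u ∈ S' := ⟨⟨hu, h1.trans a2, h2.trans a3⟩, h1.trans a4⟩
      exact lf_inj hθ (le_antisymm h2 (hmin2 u h3))
  have hm2' : m2 ≠ 0 := fun h0 => a1 (by rw [h0]; rfl)
  rcases lt_or_gt_of_ne (lf_ne hθ hm2') with h | h
  · refine ⟨-m2, ⟨by rw [map_neg]; linarith, fun u h1 h2 => ?_⟩, ?_, ?_, ?_⟩
    · rw [map_neg xv, map_neg_eq_map] at h1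
      rw [map_neg, ← abs_of_neg h] at h2
      rcases key u h1 h2 with h3 | h3 | h3
      · left; exact h3
      · right; right; rw [neg_neg]; exact h3
      · right; left; exact h3
    · simpa using a1
    · rw [map_neg xv, map_neg_eq_map]; exact a2
    · rw [map_neg, ← abs_of_neg h]; exact a3
  · refine ⟨m2, ⟨h, fun u h1 h2 => ?_⟩, a1, a2, ?_⟩
    · rw [← abs_of_pos h] at h2
      exact key u h1 h2
    · rw [← abs_of_pos h]; exact a3

lemma half {w : P2} (hw : Best2 N θ w) (h0 : w.1 ≠ 0) : lf θ w ≤ 1 / 2 := by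
  by_contra hcon
  push Not at hcon
  set y : ℤ := round (θ 0 * w.1 0 + θ 1 * w.1 1) with hy
  have h1 : |lf θ (w.1, y)| ≤ 1 / 2 := by
    rw [lf_apply]
    exact abs_sub_round _
  rcases hw.2 (w.1, y) (by rw [xv_of_fst (u := (w.1, y)) (w := w) rfl]) (by linarith) with h | h | h
  · exact h0 (congrArg Prod.fst h)
  · rw [h, abs_of_pos hw.1] at h1
    linarith
  · have h2 : w.1 = -w.1 := congrArg Prod.fst h
    apply h0
    ext j
    have := congrFun h2 j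
    simp only [Pi.neg_apply] at this
    simp only [Pi.zero_apply]
    omega

/-- The set of the lengths. -/
def B (N : Seminorm ℝ V) (θ : V) : Set ℝ := {r | ∃ w, Best2 N θ w ∧ w.1 ≠ 0 ∧ N (xv w) = r}

lemma B_finite (hN : IsNorm N) (θ : V) (R : ℝ) : {r | r ∈ B N θ ∧ r ≤ R}.Finite := by
  refine ((finite_small hN θ 1 R).image (fun w => N (xv w))).subset ?_
  rintro r ⟨⟨w, hw, h0, rfl⟩, hr⟩
  refine ⟨w, ⟨hr, ?_⟩, rfl⟩
  rw [abs_of_pos hw.1]
  linarith [half hw h0]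

lemma dirichlet2 (θ : V) {ε : ℝ} (hε : 0 < ε) : ∃ w : P2, w.1 ≠ 0 ∧ |lf θ w| < ε := by
  obtain ⟨n, hn⟩ := exists_nat_gt (1 / ε)
  have hn0 : 0 < n := by
    have : (0 : ℝ) < n := lt_trans (by positivity) hn
    exact_mod_cast this
  obtain ⟨j, k, hk0, hkn, h⟩ := Real.exists_int_int_abs_mul_sub_le (θ 0) hn0
  refine ⟨(![k, 0], j), ?_, ?_⟩
  · intro h0
    have := congrFun h0 0
    simp at this
    omega
  · have e : lf θ (![k, 0], j) = (k : ℝ) * θ 0 - j := by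
      rw [lf_apply]; simp; ring
    rw [e]
    refine lt_of_le_of_lt h ?_
    rw [div_lt_iff₀ (by positivity)]
    rw [div_lt_iff₀ hε] at hn
    nlinarith

lemma B_unbounded (hN : IsNorm N) (hθ : Adm θ) (R : ℝ) : ∃ r ∈ B N θ, R < r := by
  classical
  set S : Set P2 := {u | N (xv u) ≤ R ∧ |lf θ u| ≤ 1} \ {0} with hS
  have hSf : S.Finite := (finite_small hN θ 1 R).subset Set.diff_subset
  obtain ⟨ε, hε, hεS⟩ : ∃ ε : ℝ, 0 < ε ∧ ∀ u ∈ S, ε ≤ |lf θ u| := by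
    rcases S.eq_empty_or_nonempty with he | hne
    · exact ⟨1, one_pos, fun u hu => by rw [he] at hu; exact absurd hu (Set.notMem_empty u)⟩
    · obtain ⟨m, hm, hmin⟩ := Set.exists_min_image S (fun u => |lf θ u|) hSf hne
      exact ⟨|lf θ m|, abs_pos.mpr (lf_ne hθ hm.2), hmin⟩
  obtain ⟨w, hw0, hw⟩ := dirichlet2 θ (lt_min hε one_pos)
  obtain ⟨u, hu, hu0, _, hu2⟩ := exists_best2 hN hθ hw0 (hw.trans_le (min_le_right _ _))
  refine ⟨N (xv u), ⟨u, hu, hu0, rfl⟩, ?_⟩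
  by_contra hcon
  push Not at hcon
  have h1 : u ∈ S := by
    refine ⟨⟨hcon, ?_⟩, ?_⟩
    · rw [abs_of_pos hu.1]
      linarith [half hu hu0]
    · intro h0
      exact hu0 (by rw [Set.mem_singleton_iff.mp h0]; rfl)
  have h2 := hεS u h1
  rw [abs_of_pos hu.1] at h2
  have := hw.trans_le (min_le_left _ _)
  linarith

section matrix

variable {N₁ : Seminorm ℝ (Fin 1 → ℝ)} {Θ : Matrix (Fin 1) (Fin 2) ℝ}

lemma adm_iff : Admissible Θ ↔ Adm (Θ 0) := by
  constructor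
  · intro h w hw
    by_cases h0 : w.1 = 0
    · refine Prod.ext h0 ?_
      rw [lf_apply, h0] at hw
      simp at hw
      exact hw
    · obtain ⟨i, hi⟩ := h w.1 h0 (fun _ => w.2)
      exfalso
      apply hi
      have : i = 0 := Subsingleton.elim _ _
      rw [this, Fin.sum_univ_two]
      rw [lf_apply] at hw
      linarith
  · intro h x hx y
    refine ⟨0, fun h0 => hx ?_⟩
    have h1 : lf (Θ 0) (x, y 0) = 0 := by
      rw [lf_apply]
      rw [Fin.sum_univ_two] at h0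
      simp only
      linarith
    exact congrArg Prod.fst (h _ h1)

lemma len_eq (x : Fin 2 → ℤ) (y : ℤ) : len N x = N (xv (x, y)) := rfl

lemma err_eq (x : Fin 2 → ℤ) (y : Fin 1 → ℤ) :
    err N₁ Θ x y = |lf (Θ 0) (x, y 0)| * N₁ (fun _ => 1) := by
  have e : (fun i => (∑ j, Θ i j * x j) - y i : Fin 1 → ℝ)
      = lf (Θ 0) (x, y 0) • (fun _ => (1 : ℝ)) := by
    ext i
    have : i = 0 := Subsingleton.elim _ _
    rw [this, Fin.sum_univ_two, lf_apply]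
    simp
  unfold err
  rw [e, map_smul_eq_mul, Real.norm_eq_abs]

lemma N1_pos (hN₁ : IsNorm N₁) : 0 < N₁ (fun _ => 1) := by
  refine lt_of_le_of_ne (apply_nonneg N₁ _) fun h0 => ?_
  have := congrFun (hN₁ _ h0.symm) 0
  simp at this

lemma isBest_iff2 (hN₁ : IsNorm N₁) (x : Fin 2 → ℤ) (y : Fin 1 → ℤ) : IsBest N N₁ Θ x y ↔
    x ≠ 0 ∧ ∀ w : P2, N (xv w) ≤ N (xv (x, y 0)) → |lf (Θ 0) w| ≤ |lf (Θ 0) (x, y 0)| →
      w = 0 ∨ w = (x, y 0) ∨ w = -(x, y 0) := by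
  have hk := N1_pos hN₁
  unfold IsBest
  refine and_congr_right fun _ => ⟨fun h w h1 h2 => ?_, fun h x' y' h1 h2 => ?_⟩
  · rcases h w.1 (fun _ => w.2) h1 (by
      rw [err_eq, err_eq]
      exact mul_le_mul_of_nonneg_right h2 hk.le) with ⟨a, b⟩ | ⟨a, b⟩ | ⟨a, b⟩
    · left; exact Prod.ext a (congrFun b 0)
    · right; left; exact Prod.ext a (congrFun b 0)
    · right; right; exact Prod.ext a (congrFun b 0)
  · rw [err_eq, err_eq] at h2
    have h3 := le_of_mul_le_mul_right h2 hk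
    have hy : ∀ (a b : Fin 1 → ℤ), a 0 = b 0 → a = b := by
      intro a b hab
      ext i
      rw [Subsingleton.elim i 0]; exact hab
    rcases h (x', y' 0) h1 h3 with h4 | h4 | h4
    · left
      exact ⟨congrArg Prod.fst h4, hy _ _ (congrArg Prod.snd h4)⟩
    · right; left
      exact ⟨congrArg Prod.fst h4, hy _ _ (congrArg Prod.snd h4)⟩
    · right; right
      exact ⟨congrArg Prod.fst h4, hy _ _ (congrArg Prod.snd h4)⟩

lemma lengths_eq (hN₁ : IsNorm N₁) (hθ : Adm (Θ 0)) : Lengths N N₁ Θ = B N (Θ 0) := by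
  ext r
  constructor
  · rintro ⟨x, y, hb, rfl⟩
    rw [isBest_iff2 hN₁] at hb
    obtain ⟨hx, hb⟩ := hb
    have h0 : ((x, y 0) : P2) ≠ 0 := fun h => hx (congrArg Prod.fst h)
    rcases lt_or_gt_of_ne (lf_ne hθ h0) with h | h
    · refine ⟨-(x, y 0), ⟨by rw [map_neg]; linarith, fun u h1 h2 => ?_⟩, ?_, ?_⟩
      · rw [map_neg xv, map_neg_eq_map] at h1
        rw [map_neg, ← abs_of_neg h] at h2
        rcases hb u h1 h2 with h3 | h3 | h3
        · left; exact h3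
        · right; right; rw [neg_neg]; exact h3
        · right; left; exact h3
      · simpa using hx
      · rw [map_neg xv, map_neg_eq_map]; rfl
    · refine ⟨(x, y 0), ⟨h, fun u h1 h2 => ?_⟩, hx, rfl⟩
      rw [← abs_of_pos h] at h2
      exact hb u h1 h2
  · rintro ⟨w, hw, h0, rfl⟩
    refine ⟨w.1, fun _ => w.2, ?_, rfl⟩
    rw [isBest_iff2 hN₁]
    refine ⟨h0, fun u h1 h2 => ?_⟩
    have h3 : ((w.1, w.2) : P2) = w := rfl
    rw [h3] at h1 h2 ⊢
    rw [abs_of_pos hw.1] at h2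
    exact hw.2 u h1 h2

lemma M_succ (hN : IsNorm N) (hN₁ : IsNorm N₁) (hΘ : Admissible Θ) (ν : ℕ) :
    M N N₁ Θ (ν + 1) ∈ B N (Θ 0) ∧ M N N₁ Θ ν < M N N₁ Θ (ν + 1) ∧
      ∀ r ∈ B N (Θ 0), M N N₁ Θ ν < r → M N N₁ Θ (ν + 1) ≤ r := by
  have hθ := adm_iff.mp hΘ
  obtain ⟨r0, hr0, hr0'⟩ := B_unbounded hN hθ (M N N₁ Θ ν)
  set S : Set ℝ := {r | r ∈ B N (Θ 0) ∧ M N N₁ Θ ν < r} with hS
  have hSf : {r | r ∈ S ∧ r ≤ r0}.Finite := (B_finite hN (Θ 0) r0).subset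
    (fun r hr => ⟨hr.1.1, hr.2⟩)
  obtain ⟨m, hm, hmin⟩ := Set.exists_min_image _ (fun r : ℝ => r) hSf ⟨r0, ⟨hr0, hr0'⟩, le_rfl⟩
  have hleast : IsLeast S m := by
    refine ⟨hm.1, fun r hr => ?_⟩
    rcases le_total r r0 with h | h
    · exact hmin r ⟨hr, h⟩
    · exact hm.2.trans h
  have e : M N N₁ Θ (ν + 1) = m := by
    show sInf {r | r ∈ Lengths N N₁ Θ ∧ M N N₁ Θ ν < r} = m
    rw [lengths_eq hN₁ hθ]
    exact hleast.csInf_eq
  rw [e]
  exact ⟨hm.1.1, hm.1.2, fun r hr1 hr2 => hleast.2 ⟨hr1, hr2⟩⟩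

/-- The sequence of best approximation points. -/
theorem exists_Fr (hN : IsNorm N) (hN₁ : IsNorm N₁) (hΘ : Admissible Θ) :
    ∃ z : ℕ → P2, Fr N (Θ 0) z ∧ ∀ k, N (xv (z k)) = M N N₁ Θ (k + 1) := by
  have hθ := adm_iff.mp hΘ
  have h : ∀ k, ∃ w, Best2 N (Θ 0) w ∧ w.1 ≠ 0 ∧ N (xv w) = M N N₁ Θ (k + 1) := fun k =>
    (M_succ hN hN₁ hΘ k).1
  choose z hz1 hz2 hz3 using h
  have hmono : ∀ k, N (xv (z k)) < N (xv (z (k + 1))) := by
    intro k
    rw [hz3, hz3]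
    exact (M_succ hN hN₁ hΘ (k + 1)).2.1
  refine ⟨z, ⟨hz1, hmono, fun k => ?_, fun k w hw hx => ?_, xv_pos hN (hz2 0)⟩, hz3⟩
  · by_contra hcon
    push Not at hcon
    rcases (hz1 (k + 1)).2 (z k) (hmono k).le (by rw [abs_of_pos (hz1 k).1]; exact hcon)
      with h1 | h1 | h1
    · exact hz2 k (by rw [h1]; rfl)
    · have := hmono k
      rw [h1] at this
      exact lt_irrefl _ this
    · have := hmono k
      rw [h1, map_neg xv, map_neg_eq_map] at this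
      exact lt_irrefl _ this
  · by_contra hcon
    push Not at hcon
    have h12 := half (hz1 k) (hz2 k)
    have hw1 : w.1 ≠ 0 := fun h0 => hw (zero_of_fst h0 (by linarith))
    obtain ⟨u, hu, hu0, hu1, hu2⟩ := exists_best2 hN hθ hw1 (by linarith)
    have h1 : N (xv u) ∈ B N (Θ 0) := ⟨u, hu, hu0, rfl⟩
    have h2 : N (xv u) ≤ N (xv (z k)) := by
      by_contra h3
      push Not at h3
      rw [hz3] at h3
      have := (M_succ hN hN₁ hΘ (k + 1)).2.2 _ h1 h3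
      rw [← hz3] at this
      linarith
    rcases (hz1 k).2 u h2 (by rw [abs_of_pos hu.1]; linarith) with h3 | h3 | h3
    · exact hu0 (by rw [h3]; rfl)
    · rw [h3] at hu2; linarith
    · have h4 := hu.1
      rw [h3, map_neg] at h4
      linarith [(hz1 k).1]

/-- Exponential growth gives a lower bound for `G`. -/
theorem le_G_of_growth' {t c : ℝ} (ht : 0 < t) (hc : 0 < c)
    (h : ∀ᶠ ν in atTop, c * t ^ ν ≤ M N N₁ Θ ν) : ENNReal.ofReal t ≤ G N N₁ Θ := by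
  have hlim : Tendsto (fun ν : ℕ => ENNReal.ofReal (c ^ (1 / (ν : ℝ)) * t)) atTop
      (𝓝 (ENNReal.ofReal t)) := by
    apply ENNReal.tendsto_ofReal
    have h1 : Tendsto (fun ν : ℕ => c ^ (1 / (ν : ℝ))) atTop (𝓝 (c ^ (0 : ℝ))) := by
      apply Tendsto.rpow tendsto_const_nhds tendsto_one_div_atTop_nhds_zero_nat
      left
      positivity
    rw [Real.rpow_zero] at h1
    simpa using h1.mul_const t
  rw [← hlim.liminf_eq]
  unfold G
  refine liminf_le_liminf ?_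
  filter_upwards [eventually_ge_atTop 1, h] with ν hν hM
  apply ENNReal.ofReal_le_ofReal
  have hν0 : (0 : ℝ) < ν := by exact_mod_cast hν
  calc c ^ (1 / (ν : ℝ)) * t = (c * t ^ ν) ^ (1 / (ν : ℝ)) := by
        rw [Real.mul_rpow (by positivity) (by positivity)]
        congr 1
        rw [one_div, Real.pow_rpow_inv_natCast ht.le (by omega)]
    _ ≤ (M N N₁ Θ ν : ℝ) ^ (1 / (ν : ℝ)) := Real.rpow_le_rpow (by positivity) hM (by positivity)

/-- **Lower bound.** -/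
theorem low (hN : IsNorm N) (hN₁ : IsNorm N₁) (hΘ : Admissible Θ) {t c : ℝ} (ht : 1 ≤ t)
    (hc : 0 < c)
    (hUG : ∀ A : V →ₗ[ℝ] V, Function.Injective A → UG (N.comp A) t c) :
    (∃ c' : ℝ, 0 < c' ∧ ∀ ν, 1 ≤ ν → c' * (Real.sqrt t) ^ ν ≤ M N N₁ Θ ν) ∧
      ENNReal.ofReal (Real.sqrt t) ≤ G N N₁ Θ := by
  obtain ⟨z, hz, hzM⟩ := exists_Fr hN hN₁ hΘ
  have hθ := adm_iff.mp hΘ
  have ht0 : 0 < t := by linarith
  have hdec : ∀ k K, c * t ^ K * lf (Θ 0) (z (k + K)) ≤ lf (Θ 0) (z k) := by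
    intro k K
    exact decay hN hθ ht hc hUG (fun i => z (k + i)) K (fun i _ => hz.best _)
      (fun i _ => hz.anti (k + i))
  obtain ⟨κ, hκ, hg⟩ := hz.growth hN ht hc hdec
  set s := Real.sqrt t with hs
  have hs0 : 0 < s := Real.sqrt_pos.mpr ht0
  have hs1 : 1 ≤ s := Real.one_le_sqrt.mpr ht
  have hst : s ^ 2 = t := Real.sq_sqrt ht0.le
  have hκs : 0 < Real.sqrt κ := Real.sqrt_pos.mpr hκ
  have h1 : ∀ k, Real.sqrt κ * s ^ k ≤ M N N₁ Θ (k + 2) := by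
    intro k
    have h2 := hg k
    rw [hzM] at h2
    have h3 : 0 ≤ M N N₁ Θ (k + 1 + 1) := by rw [← hzM]; exact apply_nonneg N _
    refine le_of_sq_le_sq ?_ h3
    rw [mul_pow, Real.sq_sqrt hκ.le, ← pow_mul, mul_comm k 2, pow_mul, hst]
    exact h2
  have hM1 : 0 < M N N₁ Θ 1 := by rw [← hzM 0]; exact hz.pos0
  have key : ∃ c' : ℝ, 0 < c' ∧ ∀ ν, 1 ≤ ν → c' * s ^ ν ≤ M N N₁ Θ ν := by
    refine ⟨min (Real.sqrt κ / s ^ 2) (M N N₁ Θ 1 / s), lt_min (by positivity) (by positivity),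
      fun ν hν => ?_⟩
    rcases Nat.eq_or_lt_of_le hν with rfl | hν2
    · calc min (Real.sqrt κ / s ^ 2) (M N N₁ Θ 1 / s) * s ^ 1 ≤ M N N₁ Θ 1 / s * s ^ 1 :=
          mul_le_mul_of_nonneg_right (min_le_right _ _) (by positivity)
        _ = M N N₁ Θ 1 := by field_simp
    · obtain ⟨k, rfl⟩ : ∃ k, ν = k + 2 := ⟨ν - 2, by omega⟩
      calc min (Real.sqrt κ / s ^ 2) (M N N₁ Θ 1 / s) * s ^ (k + 2)
          ≤ Real.sqrt κ / s ^ 2 * s ^ (k + 2) :=
            mul_le_mul_of_nonneg_right (min_le_left _ _) (by positivity)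
        _ = Real.sqrt κ * s ^ k := by rw [pow_add]; field_simp
        _ ≤ _ := h1 k
  refine ⟨key, ?_⟩
  obtain ⟨c', hc', h⟩ := key
  refine le_G_of_growth' hs0 hc' ?_
  filter_upwards [eventually_ge_atTop 1] with ν hν
  exact h ν hν

lemma infinite_lengths (hN : IsNorm N) (hN₁ : IsNorm N₁) (hΘ : Admissible Θ) :
    (Lengths N N₁ Θ).Infinite := by
  have hθ := adm_iff.mp hΘ
  rw [lengths_eq hN₁ hθ]
  intro hf
  obtain ⟨b, hb⟩ := hf.bddAbove
  obtain ⟨r, hr, hr'⟩ := B_unbounded hN hθ b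
  exact absurd (hb hr) (not_le.mpr hr')

end matrix

end Pool.Agent.Work.MP_7453a1_nt_two
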