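import Pool.Agent.Work.MP_7453a1_nt_h45.Main
import Pool.Agent.Work.MP_7453a1_nt_sup.Main
import Pool.Agent.Work.MP_7453a1_nt_sym.Final

set_option autoImplicit false

/-!
Uniform growth of the denominators for `m = 1`, `n = 2`.
-/

namespace Pool.Agent.Work.MP_7453a1_nt_two

open Pool.Agent.Work.MP_7453a1_nt_norm Pool.Agent.Work.MP_7453a1_nt_h45
open Pool.Agent.Work.MP_7453a1_nt_sym (IsFrame2 Sym)

abbrev V : Type := Fin 2 → ℝ

variable {N : Seminorm ℝ V} {Θ : V}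

/-- Two best approximation points with the same first coordinate coincide. -/
lemma bestPt_eq {a b : Pt 2} (ha : BestPt N Θ a) (hb : BestPt N Θ b) (h : a.1 = b.1) : a = b := by
  rcases le_total (er N Θ a) (er N Θ b) with h1 | h1
  · rcases hb.2 a (by rw [abs_of_pos ha.1, h]) h1 with h2 | h2 | h2
    · have := ha.1; rw [h2] at this; simp at this
    · exact h2
    · have h3 := ha.1
      have h4 := hb.1
      rw [h2] at h3
      simp only [Prod.fst_neg] at h3
      omega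
  · rcases ha.2 b (by rw [abs_of_pos hb.1, h]) h1 with h2 | h2 | h2
    · have := hb.1; rw [h2] at this; simp at this
    · exact h2.symm
    · have h3 := ha.1
      have h4 := hb.1
      rw [h2] at h4
      simp only [Prod.fst_neg] at h4
      omega

/-- A frame that starts at a given best approximation point. -/
theorem frame_at (hN : IsNorm N) (hΘ : Admissible Θ) {a : Pt 2} (ha : BestPt N Θ a)
    (hr : ∀ p : Fin 2 → ℤ, p ≠ 0 → 2 * er N Θ a ≤ N (fun i => (p i : ℝ))) :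
    ∃ y : ℕ → Pt 2, y 0 = a ∧ IsFrame2 N Θ y ∧
      ∀ b, BestPt N Θ b → a.1 ≤ b.1 → ∃ j, (y j).1 = b.1 := by
  classical
  obtain ⟨z, hz⟩ := exists_seq hN hΘ
  have hidx : ∀ b, BestPt N Θ b → ∃ k, (z k).1 = b.1 := by
    intro b hb
    have h1 : IsBestDenominator N Θ b.1.toNat := by
      rw [bestDen_iff]
      exact ⟨b, hb, by rw [Int.toNat_of_nonneg hb.1.le]⟩
    refine ⟨Nat.count (IsBestDenominator N Θ) b.1.toNat, ?_⟩
    rw [(hz _).2, Nat.nth_count h1, Int.toNat_of_nonneg hb.1.le]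
  obtain ⟨ka, hka⟩ := hidx a ha
  have hza : z ka = a := bestPt_eq (hz ka).1 ha hka
  have hsm : ∀ k, er N Θ (z (ka + k)) ≤ 2 * er N Θ a / 2 := by
    intro k
    have h0 : 2 * er N Θ a / 2 = er N Θ a := by ring
    rw [h0, ← hza]
    rcases Nat.eq_zero_or_pos k with rfl | hk
    · exact le_rfl
    · exact (er_lt hN hΘ hz (show ka < ka + k by omega)).le
  refine ⟨fun j => z (ka + j), hza, ⟨⟨fun k => (hz _).1.1,
    fun k l h => strictMono_z hN hΘ hz (by omega), fun k l h => er_lt hN hΘ hz (by omega),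
    fun k w hw hx => between hN hΘ hz (ka + k) hr (hsm k) w hw hx⟩, ?_⟩, ?_⟩
  · intro w hw hw1
    have h2 : w.2 ≠ 0 := by
      intro h0
      exact hw (Prod.ext hw1 h0)
    have h3 := hr w.2 h2
    have h4 : er N Θ w = N (fun i => (w.2 i : ℝ)) := by
      rw [← er_neg]
      unfold er
      congr 1
      ext i
      simp [ev, hw1]
    rw [h4]
    simp only [add_zero, hza]
    exact h3
  · intro b hb hab
    obtain ⟨kb, hkb⟩ := hidx b hb
    have h1 : ka ≤ kb := by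
      by_contra hcon
      push Not at hcon
      have := strictMono_z hN hΘ hz hcon
      rw [hza, hkb] at this
      omega
    exact ⟨kb - ka, by simp only [show ka + (kb - ka) = kb by omega]; exact hkb⟩

/-- Uniform growth of the denominators for the norm `N`. -/
def UG (N : Seminorm ℝ V) (t c : ℝ) : Prop :=
  ∀ (Θ : V) (z : ℕ → Pt 2), IsFrame2 N Θ z → ∀ k, c * t ^ k * ((z 0).1 : ℝ) ≤ ((z k).1 : ℝ)

/-- Growth along a chain of best approximation points. -/
theorem UG.chain {t c : ℝ} (h : UG N t c) (ht : 1 ≤ t) (hc : 0 < c) (hN : IsNorm N)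
    (hΘ : Admissible Θ) (b : ℕ → Pt 2) (K : ℕ) (hb : ∀ i, i ≤ K → BestPt N Θ (b i))
    (hm : ∀ i, i < K → (b i).1 < (b (i + 1)).1)
    (hr : ∀ p : Fin 2 → ℤ, p ≠ 0 → 2 * er N Θ (b 0) ≤ N (fun i => (p i : ℝ))) :
    c * t ^ K * ((b 0).1 : ℝ) ≤ ((b K).1 : ℝ) := by
  obtain ⟨y, h0, h1, h2⟩ := frame_at hN hΘ (hb 0 (by omega)) hr
  have hge : ∀ i, i ≤ K → (b 0).1 ≤ (b i).1 := by
    intro i
    induction i with
    | zero => intro _; exact le_rfl
    | succ i ih => intro hi; exact (ih (by omega)).trans (hm i (by omega)).le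
  have key : ∀ i, i ≤ K → ∃ j, i ≤ j ∧ (y j).1 = (b i).1 := by
    intro i
    induction i with
    | zero => intro _; exact ⟨0, le_rfl, by rw [h0]⟩
    | succ i ih =>
      intro hi
      obtain ⟨j, hj1, hj2⟩ := ih (by omega)
      obtain ⟨j', hj'⟩ := h2 (b (i + 1)) (hb _ hi) (hge _ hi)
      refine ⟨j', ?_, hj'⟩
      by_contra hcon
      push Not at hcon
      have h3 : (y j').1 ≤ (y j).1 := by
        rcases (show j' ≤ j by omega).lt_or_eq with h4 | h4
        · exact (h1.mono _ _ h4).le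
        · rw [h4]
      have := hm i (by omega)
      omega
  obtain ⟨j, hj1, hj2⟩ := key K le_rfl
  have h3 := h Θ y h1 j
  rw [h0, hj2] at h3
  refine le_trans ?_ h3
  have h4 : t ^ K ≤ t ^ j := pow_le_pow_right₀ ht hj1
  have h5 : (0 : ℝ) < ((b 0).1 : ℝ) := by exact_mod_cast (hb 0 (by omega)).1
  have h6 : c * t ^ K ≤ c * t ^ j := mul_le_mul_of_nonneg_left h4 hc.le
  exact mul_le_mul_of_nonneg_right h6 h5.le

/-- Uniform growth from a windowed induction step. -/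
lemma UG_of_step {t : ℝ} (ht : 1 ≤ t) (d : ℕ)
    (h : ∀ (Θ : V) (z : ℕ → Pt 2), IsFrame2 N Θ z → ∀ (c : ℝ) (k : ℕ), 0 < c → d ≤ k →
      (∀ j, j < k → c * t ^ j ≤ ((z j).1 : ℝ)) → c * t ^ k ≤ ((z k).1 : ℝ)) :
    UG N t (t ^ d)⁻¹ := by
  intro Θ z hz k
  have ht0 : 0 < t := by linarith
  have hz0 : (0 : ℝ) < ((z 0).1 : ℝ) := by exact_mod_cast hz.pos 0
  have hge : ∀ k, ((z 0).1 : ℝ) ≤ ((z k).1 : ℝ) := by
    intro k
    rcases Nat.eq_zero_or_pos k with rfl | hk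
    · exact le_rfl
    · exact_mod_cast (hz.mono 0 k hk).le
  have key : ∀ k, (t ^ d)⁻¹ * ((z 0).1 : ℝ) * t ^ k ≤ ((z k).1 : ℝ) := by
    intro k
    induction k using Nat.strong_induction_on with
    | _ k ih =>
      rcases lt_or_ge k d with hk | hk
      · have h3 : t ^ k ≤ t ^ d := pow_le_pow_right₀ ht hk.le
        have h4 : (t ^ d)⁻¹ * t ^ k ≤ 1 := by
          rw [inv_mul_le_iff₀ (by positivity)]; linarith
        have h5 := mul_le_mul_of_nonneg_right h4 hz0.le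
        have h6 := hge k
        linarith
      · exact h Θ z hz _ k (by positivity) hk ih
  have := key k
  linarith

/-- Every norm. -/
theorem UG_all {t : ℝ} (ht : 1 ≤ t) (h8 : t ^ 8 = 2 * t ^ 4 + t + 1) : UG N t (t ^ 8)⁻¹ := by
  refine UG_of_step ht 8 fun Θ z hz2 c k hc hk ih => ?_
  have hz : IsFrame N Θ z := hz2.toIsFrame
  obtain ⟨i, rfl⟩ : ∃ i, k = i + 8 := ⟨k - 8, by omega⟩
  have hI : ∀ j, j < 8 → c * t ^ i * t ^ j ≤ ((z (i + j)).1 : ℝ) := by
    intro j hj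
    have := ih (i + j) (by omega)
    rwa [pow_add, ← mul_assoc] at this
  have ex : ∀ j : ℕ, ((z (i + j + 3)).1 : ℝ) < (z (i + j)).1 + (z (i + j + 1)).1 →
      ((z (i + j + 3)).1 : ℝ) + (z (i + j)).1 = (z (i + j + 1)).1 + (z (i + j + 2)).1 := by
    intro j hj
    have hj' : (z (i + j + 3)).1 < (z (i + j)).1 + (z (i + j + 1)).1 := by exact_mod_cast hj
    have := hz.exceptional (i := i + j) (j := i + j + 1) (l := i + j + 2) (m := i + j + 3)
      (by omega) (by omega) (by omega) hj'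
    have h1 : (z (i + j)).1 + (z (i + j + 3)).1 = (z (i + j + 1)).1 + (z (i + j + 2)).1 :=
      congrArg Prod.fst this
    have h2 : (z (i + j + 3)).1 + (z (i + j)).1 = (z (i + j + 1)).1 + (z (i + j + 2)).1 := by
      linarith
    exact_mod_cast h2
  have nt : ∀ j : ℕ, ((z (i + j + 3)).1 : ℝ) < (z (i + j)).1 + (z (i + j + 1)).1 →
      ((z (i + j + 1)).1 : ℝ) + (z (i + j + 2)).1 ≤ (z (i + j + 4)).1 := by
    intro j hj
    have hj' : (z (i + j + 3)).1 < (z (i + j)).1 + (z (i + j + 1)).1 := by exact_mod_cast hj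
    exact_mod_cast hz.no_two (i + j) hj'
  have hP : (z (i + 6)).1 < (z (i + 3)).1 + (z (i + 4)).1 →
      (z (i + 8)).1 < (z (i + 5)).1 + (z (i + 6)).1 →
      (z (i + 4)).1 < (z (i + 3)).1 + (z (i + 1)).1 →
      ((z (i + 1)).1 + ((z (i + 4)).1 - (z (i + 3)).1) ≤ (z (i + 2)).1 ∧
        (z i).1 ≤ (z (i + 4)).1 - (z (i + 3)).1) ∨
      2 * (z (i + 1)).1 + (z i).1 ≤ (z (i + 4)).1 ∨
      (z (i + 3)).1 ≤ 2 * ((z (i + 4)).1 - (z (i + 3)).1) := by
    intro E3 E5 B
    by_cases A1 : (z (i + 4)).1 < 2 * (z (i + 1)).1 + (z i).1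
    · by_cases A2 : 2 * ((z (i + 4)).1 - (z (i + 3)).1) < (z (i + 3)).1
      · left
        obtain ⟨k1, k2⟩ := (hz.shift i).structure E3 E5 B A1 A2
        have q1 : (z (i + 1)).1 = (z (i + 2)).1 - ((z (i + 4)).1 - (z (i + 3)).1) := by
          have := congrArg Prod.fst k1
          simpa only [Prod.fst_sub] using this
        simp only [Prod.fst_sub, add_zero] at k2
        exact ⟨by omega, k2⟩
      · right; right; omega
    · right; left; omega
  have hC : 0 < c * t ^ i := by positivity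
  have key := growth_arith (m0 := ((z i).1 : ℝ)) (m1 := ((z (i + 1)).1 : ℝ))
    (m2 := ((z (i + 2)).1 : ℝ)) (m3 := ((z (i + 3)).1 : ℝ)) (m4 := ((z (i + 4)).1 : ℝ))
    (m5 := ((z (i + 5)).1 : ℝ)) (m6 := ((z (i + 6)).1 : ℝ)) (m7 := ((z (i + 7)).1 : ℝ))
    (m8 := ((z (i + 8)).1 : ℝ)) ht h8 hC
    (by simpa using hI 0 (by norm_num)) (by simpa using hI 1 (by norm_num))
    (hI 2 (by norm_num)) (hI 3 (by norm_num)) (hI 4 (by norm_num)) (hI 5 (by norm_num))
    (hI 6 (by norm_num)) (nt 0) (nt 2) (ex 3) (nt 3) (nt 4) (ex 5)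
    (fun a b c => by
      rcases hP (by exact_mod_cast a) (by exact_mod_cast b) (by exact_mod_cast c) with
        ⟨h1, h2⟩ | h3 | h4
      · left; exact ⟨by exact_mod_cast h1, by exact_mod_cast h2⟩
      · right; left; exact_mod_cast h3
      · right; right; exact_mod_cast h4)
  rw [pow_add, ← mul_assoc]
  exact key

/-- Norms with a symmetry of order six. -/
theorem UG_sym {R : V →ₗ[ℝ] V} (hS : Sym N R) {ρ : ℝ} (hρ : ρ ^ 3 = ρ + 1) (hρ1 : 1 ≤ ρ) :
    UG N ρ (ρ ^ 6)⁻¹ := by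
  refine UG_of_step hρ1 6 fun Θ z hz c k hc hk ih => ?_
  obtain ⟨i, rfl⟩ : ∃ i, k = i + 6 := ⟨k - 6, by omega⟩
  rcases Pool.Agent.Work.MP_7453a1_nt_sym.six_all N R Θ z hS hz i with h | h
  · have h1 : ((z (i + 3)).1 : ℝ) + ((z (i + 4)).1 : ℝ) ≤ ((z (i + 6)).1 : ℝ) := by
      exact_mod_cast h
    have h2 := ih (i + 3) (by omega)
    have h3 := ih (i + 4) (by omega)
    have h4 : c * ρ ^ (i + 6) = c * ρ ^ (i + 3) + c * ρ ^ (i + 4) := by
      have : ρ ^ (i + 6) = ρ ^ (i + 3) * ρ ^ 3 := by rw [← pow_add]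
      rw [this, hρ]; ring
    linarith
  · have h1 : ((z (i + 5)).1 : ℝ) + ((z (i + 1)).1 : ℝ) ≤ ((z (i + 6)).1 : ℝ) := by
      exact_mod_cast h
    have h2 := ih (i + 5) (by omega)
    have h3 := ih (i + 1) (by omega)
    have h4 : c * ρ ^ (i + 6) = c * ρ ^ (i + 5) + c * ρ ^ (i + 1) := by
      have e5 : ρ ^ 5 = ρ ^ 4 + 1 := by
        have : ρ ^ 5 - ρ ^ 4 - 1 = (ρ ^ 3 - ρ - 1) * (ρ ^ 2 - ρ + 1) := by ring
        rw [hρ] at this
        have h0 : ρ ^ 5 - ρ ^ 4 - 1 = 0 := by rw [this]; ring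
        linarith
      have : ρ ^ (i + 6) = ρ ^ (i + 1) * ρ ^ 5 := by rw [← pow_add]
      rw [this, e5]; ring
    linarith

end Pool.Agent.Work.MP_7453a1_nt_two
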