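import Pool.Agent.Work.MP_7453a1_nt_two.Seq
import Pool.Agent.Work.MP_7453a1_nt_sym.UP

set_option autoImplicit false

/-!
Upper bound for one linear form in two variables and norms with a symmetry of order six: the
planar part.
-/

namespace Pool.Agent.Work.MP_7453a1_nt_two

open Pool.Agent.Work.MP_7453a1_nt_norm (IsNorm lower)
open Pool.Agent.Work.MP_7453a1_nt_sym (Sym)
open Pool.Agent.Work.MP_7453a1_nt_sym.UPAux
open Pool.Agent.Work.MP_7453a1_nt (L Q Nf U zv L_U Q_U L_zv Q_zv L_mul_Q Nf_eq_zero rho_bounds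
  rho_sq_bounds Q_sq mul_bd)
open Filter Topology
open scoped ENNReal

variable {N : Seminorm ℝ V} {R : V →ₗ[ℝ] V} {ρ a c : ℝ}

lemma r2_ne (h : Sym N R) : (R ![1, 0]) 1 ≠ 0 := by
  intro h0
  set f1 : V := ![1, 0] with hf1
  have e1 : R f1 = (R f1 0) • f1 := by
    ext i
    fin_cases i
    · simp [hf1]
    · simpa [hf1] using h0
  have e2 := h.sq f1
  rw [e1, map_smul, e1, smul_smul] at e2
  have e3 := congrFun e2 0
  simp [hf1] at e3
  set s := (R ![1, 0]) 0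
  nlinarith [sq_nonneg (2 * s - 1)]

/-- The number `LL ρ v0`. -/
noncomputable def tau (ρ : ℝ) (K m n : ℤ) : ℝ := -K + ρ + (m * K - n) * ρ ^ 2

lemma tau_ne (hρ : ρ ^ 3 = ρ + 1) (K m n : ℤ) : tau ρ K m n ≠ 0 := by
  intro h0
  have h1 := L_mul_Q hρ (-K) 1 (m * K - n)
  have h2 : L ρ (-K) 1 (m * K - n) = 0 := by
    rw [← h0]; unfold L tau; push_cast; ring
  rw [h2, zero_mul] at h1
  have h3 : Nf (-K) 1 (m * K - n) = 0 := by exact_mod_cast h1.symm
  have := (Nf_eq_zero _ _ _ h3).2.1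
  omega

/-- The choice of the lattice basis. -/
lemma params2 (h : Sym N R) (P : Par ρ a c) {ε : ℝ} (hε : 0 < ε) :
    ∃ (K m n : ℤ) (w κ : V),
      E R ρ a c w (0, 0, 1) - (ρ ^ 2 / tau ρ K m n) • E R ρ a c w (-K, 1, m * K - n) = ![1, 0] ∧
      E R ρ a c w (1, 0, -m) - ((1 - m * ρ ^ 2) / tau ρ K m n) • E R ρ a c w (-K, 1, m * K - n)
        = ![0, 1] + κ ∧ N κ ≤ ε := by
  obtain ⟨r1, r2⟩ := rho_bounds P.hρ
  obtain ⟨s1, s2⟩ := rho_sq_bounds P.hρ
  obtain ⟨b0, b1, b2⟩ := P.bd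
  have hρ := P.hρ
  have ha := P.a0
  set f1 : V := ![1, 0] with hf1
  set f2 : V := ![0, 1] with hf2
  obtain ⟨K', hK'⟩ := exists_nat_gt (8 * N f1 / ε + 20)
  have hNf1 : 0 ≤ N f1 := apply_nonneg N _
  have hK6 : (20 : ℝ) < K' := by
    have : 0 ≤ 8 * N f1 / ε := by positivity
    linarith
  have hKe : 8 * N f1 < ε * K' := by
    have : 8 * N f1 / ε < K' := by linarith
    rw [div_lt_iff₀ hε] at this
    linarith
  set K : ℝ := (K' : ℝ) with hK
  have hr := r2_ne h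
  rw [← hf1] at hr
  obtain ⟨g, hh, hf2e⟩ : ∃ g hh : ℝ, f2 = g • f1 + hh • Lam R a c f1 := by
    refine ⟨-(a * (R f1 0) - c) * (1 / (a * R f1 1)), 1 / (a * R f1 1), ?_⟩
    have z0 : f1 0 = 1 := rfl
    have z1 : f1 1 = 0 := rfl
    have z2 : f2 0 = 0 := rfl
    have z3 : f2 1 = 1 := rfl
    unfold Lam
    ext i
    fin_cases i
    · show f2 0 = -(a * (R f1 0) - c) * (1 / (a * R f1 1)) * f1 0
        + 1 / (a * R f1 1) * (a * R f1 0 - c * f1 0)
      rw [z0, z2]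
      ring
    · show f2 1 = -(a * (R f1 0) - c) * (1 / (a * R f1 1)) * f1 1
        + 1 / (a * R f1 1) * (a * R f1 1 - c * f1 1)
      rw [z1, z3]
      field_simp
      ring
  set a0 : ℝ := (2 * ρ ^ 2 - 1) * K - 1 with ha0
  set a1 : ℝ := ρ * K - 2 * ρ ^ 2 with ha1
  have hdiff : a0 - ρ * a1 = (ρ ^ 2 - 1) * K + 2 * ρ + 1 := by
    rw [ha0, ha1]
    linear_combination 2 * hρ
  have hd0 : 0.75 * K ≤ a0 - ρ * a1 := by rw [hdiff]; nlinarith
  have hd1 : a0 - ρ * a1 ≤ 1.2 * K := by rw [hdiff]; nlinarith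
  have hA0 : 2.4 * K ≤ a0 := by rw [ha0]; nlinarith
  have hA1 : 0 ≤ a1 := by rw [ha1]; nlinarith
  have hA1' : a1 ≤ 1.3248 * K := by rw [ha1]; nlinarith
  set DA : ℝ := a0 * (a0 - ρ * a1) + (ρ ^ 2 - 1) * a1 ^ 2 with hDA
  have hDA1 : 1.8 * K ^ 2 ≤ DA := by
    have e1 : 2.4 * K * (0.75 * K) ≤ a0 * (a0 - ρ * a1) :=
      mul_le_mul hA0 hd0 (by positivity) (by linarith)
    have e2 : 0 ≤ (ρ ^ 2 - 1) * a1 ^ 2 := mul_nonneg (by linarith) (sq_nonneg _)
    rw [hDA]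
    nlinarith
  have hDA0 : 0 < DA := lt_of_lt_of_le (by positivity) hDA1
  set w0 : V := (1 / DA) • ((a0 - ρ * a1) • f1 - a1 • Lam R a c f1) with hw0
  have hLL := Lam_Lam h P f1
  have hAw : a0 • w0 + a1 • Lam R a c w0 = f1 := by
    have e : Lam R a c w0 = (1 / DA) • ((a0 - ρ * a1) • Lam R a c f1
        - a1 • Lam R a c (Lam R a c f1)) := by
      rw [hw0, Lam_smul, sub_eq_add_neg, Lam_add, Lam_smul, ← neg_smul, Lam_smul]
      module
    rw [e, hLL, hw0]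
    have h1 : a0 • (1 / DA) • ((a0 - ρ * a1) • f1 - a1 • Lam R a c f1)
        + a1 • (1 / DA) • ((a0 - ρ * a1) • Lam R a c f1
          - a1 • (-(ρ • Lam R a c f1) - (ρ ^ 2 - 1) • f1)) = (1 / DA * DA) • f1 := by
      rw [hDA]
      module
    rw [h1, one_div, inv_mul_cancel₀ hDA0.ne', one_smul]
  have hNw : N w0 ≤ 1.5 / K * N f1 := by
    have h1 : N w0 ≤ 1 / DA * ((a0 - ρ * a1) * N f1 + a1 * N f1) := by
      rw [hw0, map_smul_eq_mul, Real.norm_of_nonneg (by positivity)]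
      refine mul_le_mul_of_nonneg_left ?_ (by positivity)
      refine (map_sub_le_add N _ _).trans ?_
      rw [map_smul_eq_mul, map_smul_eq_mul, Real.norm_of_nonneg hA1,
        Real.norm_of_nonneg (by linarith : (0 : ℝ) ≤ a0 - ρ * a1)]
      have h2 := Lam_le h P f1
      have h4 : N (Lam R a c f1) ≤ N f1 := by nlinarith
      have := mul_le_mul_of_nonneg_left h4 hA1
      linarith
    have h2 : (a0 - ρ * a1) * N f1 + a1 * N f1 ≤ 2.7 * K * N f1 := by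
      rw [← add_mul]
      exact mul_le_mul_of_nonneg_right (by linarith) hNf1
    have h3 : 1 / DA ≤ 1 / (1.8 * K ^ 2) := one_div_le_one_div_of_le (by positivity) hDA1
    have h4 : 1 / DA * ((a0 - ρ * a1) * N f1 + a1 * N f1) ≤ 1 / (1.8 * K ^ 2) * (2.7 * K * N f1) :=
      mul_le_mul h3 h2 (add_nonneg (mul_nonneg (by linarith) hNf1) (mul_nonneg hA1 hNf1))
        (by positivity)
    refine h1.trans (h4.trans (le_of_eq ?_))
    have hK0 : K ≠ 0 := by linarith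
    field_simp
    ring
  -- rounding
  set α : ℝ := g * a0 - hh * (ρ ^ 2 - 1) * a1 with hα
  set β : ℝ := g * a1 + hh * (a0 - ρ * a1) with hβ
  set Δ : ℝ := 2 * ρ ^ 2 + 3 * ρ with hΔ
  have hΔ0 : 0 < Δ := by rw [hΔ]; positivity
  set ms : ℝ := (-ρ * (α - ρ) + (2 * ρ ^ 2 - 1) * (β + 1)) / Δ with hms
  set ns : ℝ := ((β + 1) - 2 * ρ ^ 2 * (α - ρ)) / Δ with hns
  have hms' : ms * Δ = -ρ * (α - ρ) + (2 * ρ ^ 2 - 1) * (β + 1) := by
    rw [hms]; field_simp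
  have hns' : ns * Δ = (β + 1) - 2 * ρ ^ 2 * (α - ρ) := by
    rw [hns]; field_simp
  have q4 : ρ ^ 4 = ρ ^ 2 + ρ := by linear_combination ρ * hρ
  have hE1 : ms - (2 * ρ ^ 2 - 1) * ns = α - ρ := by
    have : (ms - (2 * ρ ^ 2 - 1) * ns) * Δ = (α - ρ) * Δ := by
      have e : (ms - (2 * ρ ^ 2 - 1) * ns) * Δ = ms * Δ - (2 * ρ ^ 2 - 1) * (ns * Δ) := by ring
      rw [e, hms', hns', hΔ]
      linear_combination 4 * (α - ρ) * q4
    exact mul_right_cancel₀ hΔ0.ne' this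
  have hE2 : 2 * ρ ^ 2 * ms - ρ * ns = β + 1 := by
    have : (2 * ρ ^ 2 * ms - ρ * ns) * Δ = (β + 1) * Δ := by
      have e : (2 * ρ ^ 2 * ms - ρ * ns) * Δ = 2 * ρ ^ 2 * (ms * Δ) - ρ * (ns * Δ) := by ring
      rw [e, hms', hns', hΔ]
      linear_combination 4 * (β + 1) * q4
    exact mul_right_cancel₀ hΔ0.ne' this
  set m : ℤ := round ms with hm
  set n : ℤ := round ns with hn
  set dm : ℝ := m - ms with hdm
  set dn : ℝ := n - ns with hdn
  have hdm1 : |dm| ≤ 1 / 2 := by rw [hdm, abs_sub_comm]; exact abs_sub_round _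
  have hdn1 : |dn| ≤ 1 / 2 := by rw [hdn, abs_sub_comm]; exact abs_sub_round _
  rw [abs_le] at hdm1 hdn1
  have hτ := tau_ne hρ (K' : ℤ) m n
  set τ : ℝ := tau ρ (K' : ℤ) m n with hτd
  have hτe : τ = -K + ρ + (m * K - n) * ρ ^ 2 := by
    rw [hτd]; unfold tau; push_cast; rfl
  clear_value w0
  -- the two identities
  have F1 : τ • E R ρ a c (τ • w0) (0, 0, 1) - ρ ^ 2 • E R ρ a c (τ • w0) (-(K' : ℤ), 1, m * K' - n)
      = τ • (a0 • w0 + a1 • Lam R a c w0) := by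
    unfold E
    rw [Lam_smul, ha0, ha1, hτe]
    simp only
    push_cast
    rw [← hK]
    match_scalars
    · linear_combination (-(-K + ρ + (m * K - n) * ρ ^ 2)) * hρ
    · ring
  have F2 : τ • E R ρ a c (τ • w0) (1, 0, -m)
      - (1 - m * ρ ^ 2) • E R ρ a c (τ • w0) (-(K' : ℤ), 1, m * K' - n)
      = τ • ((ρ - (2 * ρ ^ 2 - 1) * n + m) • w0 + (2 * ρ ^ 2 * m - ρ * n - 1) • Lam R a c w0) := by
    unfold E
    rw [Lam_smul, hτe]
    simp only
    push_cast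
    rw [← hK]
    match_scalars
    · linear_combination ((-K + ρ + (m * K - n) * ρ ^ 2) * m) * hρ
    · ring
  refine ⟨(K' : ℤ), m, n, τ • w0,
    (dm - (2 * ρ ^ 2 - 1) * dn) • w0 + (2 * ρ ^ 2 * dm - ρ * dn) • Lam R a c w0, ?_, ?_, ?_⟩
  · have e : E R ρ a c (τ • w0) (0, 0, 1)
        - (ρ ^ 2 / τ) • E R ρ a c (τ • w0) (-(K' : ℤ), 1, m * K' - n)
        = τ⁻¹ • (τ • E R ρ a c (τ • w0) (0, 0, 1)
          - ρ ^ 2 • E R ρ a c (τ • w0) (-(K' : ℤ), 1, m * K' - n)) := by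
      rw [smul_sub, smul_smul, smul_smul, inv_mul_cancel₀ hτ, one_smul, div_eq_inv_mul]
    rw [e, F1, smul_smul, inv_mul_cancel₀ hτ, one_smul, hAw]
  · have e : E R ρ a c (τ • w0) (1, 0, -m)
        - ((1 - m * ρ ^ 2) / τ) • E R ρ a c (τ • w0) (-(K' : ℤ), 1, m * K' - n)
        = τ⁻¹ • (τ • E R ρ a c (τ • w0) (1, 0, -m)
          - (1 - m * ρ ^ 2) • E R ρ a c (τ • w0) (-(K' : ℤ), 1, m * K' - n)) := by
      rw [smul_sub, smul_smul, smul_smul, inv_mul_cancel₀ hτ, one_smul, div_eq_inv_mul]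
    rw [e, F2, smul_smul, inv_mul_cancel₀ hτ, one_smul]
    have hf2' : f2 = α • w0 + β • Lam R a c w0 := by
      have hLw := Lam_Lam h P w0
      rw [hf2e]
      conv_lhs => rw [← hAw]
      rw [Lam_add, Lam_smul, Lam_smul, hLw, hα, hβ]
      module
    rw [hf2', hdm, hdn]
    match_scalars
    · linear_combination hE1
    · linear_combination hE2
  · refine (map_add_le_add N _ _).trans ?_
    rw [map_smul_eq_mul, map_smul_eq_mul, Real.norm_eq_abs, Real.norm_eq_abs]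
    have h2 := Lam_le h P w0
    have h3 : 0 ≤ N w0 := apply_nonneg N _
    have h4 : 0 ≤ N (Lam R a c w0) := apply_nonneg N _
    have h5 : N (Lam R a c w0) ≤ N w0 := by nlinarith
    have h6 : |dm - (2 * ρ ^ 2 - 1) * dn| ≤ 1.8 := by
      rw [abs_le]
      constructor <;> nlinarith
    have h7 : |2 * ρ ^ 2 * dm - ρ * dn| ≤ 2.5 := by
      rw [abs_le]
      constructor <;> nlinarith
    have h8 := mul_le_mul_of_nonneg_right h6 h3
    have h9 := mul_le_mul_of_nonneg_right h7 h4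
    have h10 : 4.3 * N w0 ≤ 4.3 * (1.5 / K * N f1) := mul_le_mul_of_nonneg_left hNw (by norm_num)
    have h11 : 4.3 * (1.5 / K * N f1) ≤ ε := by
      have e : 4.3 * (1.5 / K * N f1) = 6.45 * N f1 / K := by ring
      rw [e, div_le_iff₀ (by linarith)]
      linarith
    linarith

end Pool.Agent.Work.MP_7453a1_nt_two
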