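import Pool.Agent.Work.MP_7453a1_nt_two.UpA

set_option autoImplicit false

/-!
Upper bound for one linear form in two variables and norms with a symmetry of order six.
-/

namespace Pool.Agent.Work.MP_7453a1_nt_two

open Pool.Agent.Work.MP_7453a1_nt_norm (IsNorm lower)
open Pool.Agent.Work.MP_7453a1_nt_sym (Sym)
open Pool.Agent.Work.MP_7453a1_nt_sym.UPAux
open Pool.Agent.Work.MP_7453a1_nt (L Q Nf U zv L_U Q_U L_zv Q_zv L_mul_Q Nf_eq_zero rho_bounds
  rho_sq_bounds Q_sq mul_bd)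
open Filter Topology
open scoped ENNReal

variable {N : Seminorm ℝ V} {R : V →ₗ[ℝ] V} {ρ a c : ℝ}

/-- The inverse of `Λ`. -/
noncomputable def Laminv (R : V →ₗ[ℝ] V) (ρ a c : ℝ) (y : V) : V :=
  (-ρ) • (Lam R a c y + ρ • y)

lemma Lam_Laminv (h : Sym N R) (P : Par ρ a c) (y : V) :
    Lam R a c (Laminv R ρ a c y) = y := by
  unfold Laminv
  rw [Lam_smul, Lam_add, Lam_smul, Lam_Lam h P]
  have h1 := P.hρ
  match_scalars
  · ring
  · linear_combination h1

/-- The base vectors. -/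
noncomputable def bw (R : V →ₗ[ℝ] V) (ρ a c : ℝ) (w : V) (k : ℕ) : V := (Laminv R ρ a c)^[k] w

lemma bw_succ (w : V) (k : ℕ) : bw R ρ a c w (k + 1) = Laminv R ρ a c (bw R ρ a c w k) :=
  Function.iterate_succ_apply' _ _ _

lemma Lam_bw (h : Sym N R) (P : Par ρ a c) (w : V) (k : ℕ) :
    Lam R a c (bw R ρ a c w (k + 1)) = bw R ρ a c w k := by
  rw [bw_succ, Lam_Laminv h P]

lemma iter_bw (h : Sym N R) (P : Par ρ a c) (w : V) (k : ℕ) :
    (Lam R a c)^[k] (bw R ρ a c w k) = w := by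
  induction k with
  | zero => rfl
  | succ k ih => rw [Function.iterate_succ_apply, Lam_bw h P, ih]

lemma N_bw (h : Sym N R) (P : Par ρ a c) (w : V) (k : ℕ) :
    N (bw R ρ a c w k) ≤ 0.99 * N (bw R ρ a c w (k + 1)) := by
  have h1 := Lam_le h P (bw R ρ a c w (k + 1))
  rw [Lam_bw h P] at h1
  have h2 := P.bd.2.2
  have h3 : 0 ≤ N (bw R ρ a c w (k + 1)) := apply_nonneg N _
  nlinarith

lemma N_bw_ge (h : Sym N R) (P : Par ρ a c) (w : V) (k : ℕ) : N w ≤ N (bw R ρ a c w k) := by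
  induction k with
  | zero => exact le_rfl
  | succ k ih =>
    have h1 := N_bw h P w k
    have h3 : 0 ≤ N (bw R ρ a c w (k + 1)) := apply_nonneg N _
    linarith

lemma bw_coord (h : Sym N R) (P : Par ρ a c) (w : V) (k : ℕ) : ∃ x y : ℝ,
    bw R ρ a c w k = x • w + y • R w ∧ x ^ 2 + x * y + y ^ 2 = ρ ^ k := by
  induction k with
  | zero => exact ⟨1, 0, by simp [bw], by ring⟩
  | succ k ih =>
    obtain ⟨x, y, e, q⟩ := ih
    have h2 := P.c2
    have h3 := P.a2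
    have hρ := P.hρ
    set p : ℝ := ρ * (c - ρ) with hp
    set s : ℝ := -ρ * a with hs
    have hps : p ^ 2 + p * s + s ^ 2 = ρ := by
      have e1 : c = (ρ + a) / 2 := by linarith
      rw [hp, hs, e1]
      linear_combination (3 / 4 * ρ ^ 2) * h3 + ρ * hρ
    refine ⟨p * x - s * y, p * y + s * x + s * y, ?_, ?_⟩
    · rw [bw_succ, e]
      unfold Laminv Lam
      simp only [map_add, map_smul, h.sq]
      rw [hp, hs]
      match_scalars
      · ring
      · ring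
    · rw [pow_succ ρ k, ← q, ← hps]
      ring

lemma N_bw_le (h : Sym N R) (P : Par ρ a c) (w : V) (k : ℕ) :
    N (bw R ρ a c w k) ≤ 2 * (Real.sqrt ρ) ^ k * N w := by
  obtain ⟨x, y, e, q⟩ := bw_coord h P w k
  have hρ0 : 0 < ρ := by linarith [(rho_bounds P.hρ).1]
  have h1 : N (bw R ρ a c w k) ≤ (|x| + |y|) * N w := by
    rw [e]
    refine (map_add_le_add N _ _).trans ?_
    rw [map_smul_eq_mul, map_smul_eq_mul, h.inv, Real.norm_eq_abs, Real.norm_eq_abs]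
    linarith
  have h2 : |x| + |y| ≤ 2 * (Real.sqrt ρ) ^ k := by
    refine le_of_sq_le_sq ?_ (by positivity)
    rw [mul_pow, ← pow_mul, mul_comm k 2, pow_mul, Real.sq_sqrt hρ0.le, ← q]
    have e1 : |x| ^ 2 = x ^ 2 := sq_abs x
    have e2 : |y| ^ 2 = y ^ 2 := sq_abs y
    have e3 : -(|x| * |y|) ≤ x * y := by
      rw [← abs_mul]; exact neg_abs_le _
    nlinarith [sq_nonneg (|x| - |y|)]
  exact h1.trans (mul_le_mul_of_nonneg_right h2 (apply_nonneg N _))

/-- Division by `ρ` on the coordinates. -/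
def W (v : ℤ × ℤ × ℤ) : ℤ × ℤ × ℤ := (v.2.1 - v.1, v.2.2, v.1)

/-- Coordinates of `ρ ^ (-k)`. -/
def wv (k : ℕ) : ℤ × ℤ × ℤ := W^[k] (1, 0, 0)

lemma U_W (v : ℤ × ℤ × ℤ) : U (W v) = v := U_surj v

lemma Uiter_wv (k : ℕ) : U^[k] (wv k) = (1, 0, 0) := by
  unfold wv
  induction k with
  | zero => rfl
  | succ k ih =>
    rw [Function.iterate_succ_apply' W k (1, 0, 0), Function.iterate_succ_apply U k, U_W, ih]

lemma LL_wv (hρ : ρ ^ 3 = ρ + 1) (k : ℕ) : ρ ^ k * LL ρ (wv k) = 1 := by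
  rw [← LL_iter hρ, Uiter_wv]
  simp [LL, L]

lemma E_wv (h : Sym N R) (P : Par ρ a c) (w : V) (k : ℕ) :
    E R ρ a c w (wv k) = bw R ρ a c w k := by
  have h1 := E_iter h P k (bw R ρ a c w k) (wv k)
  rw [Uiter_wv, E_one, iter_bw h P] at h1
  exact h1.symm

lemma U_inj : Function.Injective U := by
  intro u v h
  unfold U at h
  simp only [Prod.mk.injEq] at h
  obtain ⟨h1, h2, h3⟩ := h
  refine Prod.ext ?_ (Prod.ext h3 h1)
  omega

/-- The only lattice points in the `k`-th cylinder, downwards. -/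
lemma chain2 (hN : IsNorm N) (h : Sym N R) (P : Par ρ a c) {w : V} (hw : w ≠ 0) (k : ℕ)
    (v : ℤ × ℤ × ℤ) (hL : ρ ^ k * |LL ρ v| ≤ 1.02)
    (hE : N (E R ρ a c w v) ≤ 1.005 * N (bw R ρ a c w k)) :
    v = 0 ∨ v = wv k ∨ v = -wv k := by
  have hρ := P.hρ
  have hρ0 : 0 < ρ := by linarith [(rho_bounds hρ).1]
  have hb : bw R ρ a c w k ≠ 0 := by
    intro h0
    have h1 := N_bw_ge h P w k
    rw [h0, map_zero] at h1
    exact absurd (N_pos hN hw) (not_lt.mpr h1)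
  have h1 : |LL ρ (U^[k] v)| ≤ 1.02 * ρ ^ 0 := by
    rw [LL_iter hρ, abs_mul, abs_of_pos (by positivity : 0 < ρ ^ k), pow_zero, mul_one]
    exact hL
  have h2 : N (E R ρ a c (bw R ρ a c w k) (U^[k] v))
      ≤ 1.005 * N (E R ρ a c (bw R ρ a c w k) (zv 0)) := by
    rw [E_iter h P, iter_bw h P]
    show N (E R ρ a c w v) ≤ 1.005 * N (E R ρ a c (bw R ρ a c w k) (1, 0, 0))
    rw [E_one]
    exact hE
  have hinj : Function.Injective (U^[k]) := U_inj.iterate k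
  have hU0 : U^[k] 0 = 0 := by
    clear h1 h2 hE hL hinj hb
    induction k with
    | zero => rfl
    | succ j ih => rw [Function.iterate_succ_apply', ih]; rfl
  have hUn : ∀ u : ℤ × ℤ × ℤ, U^[k] (-u) = -U^[k] u := by
    clear h1 h2 hE hL hinj hb hU0
    induction k with
    | zero => intro u; rfl
    | succ j ih =>
      intro u
      rw [Function.iterate_succ_apply', Function.iterate_succ_apply', ih]
      obtain ⟨x, y, z⟩ := U^[j] u
      simp [U]
      omega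
  rcases chain hN h P hb 0 _ h1 h2 with h3 | h3 | h3
  · left; exact hinj (by rw [h3, hU0])
  · right; left; exact hinj (by rw [h3, Uiter_wv]; rfl)
  · right; right; exact hinj (by rw [h3, hUn, Uiter_wv]; rfl)

/-- Integer points as elements of `ℤ[ρ]`. -/
def tr2 (K m n : ℤ) (w : P2) : ℤ × ℤ × ℤ :=
  (w.1 1 + K * w.2, -w.2, w.1 0 - m * w.1 1 - (m * K - n) * w.2)

/-- The inverse. -/
def rt2 (K m n : ℤ) (v : ℤ × ℤ × ℤ) : P2 :=
  (![v.2.2 + m * v.1 + n * v.2.1, v.1 + K * v.2.1], -v.2.1)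

lemma tr2_rt2 (K m n : ℤ) (v : ℤ × ℤ × ℤ) : tr2 K m n (rt2 K m n v) = v := by
  obtain ⟨X, Y, Z⟩ := v
  unfold tr2 rt2
  refine Prod.ext ?_ (Prod.ext ?_ ?_)
  · show X + K * Y + K * -Y = X
    ring
  · show - -Y = Y
    ring
  · show Z + m * X + n * Y - m * (X + K * Y) - (m * K - n) * -Y = Z
    ring

lemma tr2_inj (K m n : ℤ) : Function.Injective (tr2 K m n) := by
  intro u v h
  unfold tr2 at h
  simp only [Prod.mk.injEq] at h
  obtain ⟨h1, h2, h3⟩ := h
  have e2 : u.2 = v.2 := by linarith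
  have e1 : u.1 1 = v.1 1 := by rw [e2] at h1; linarith
  have e0 : u.1 0 = v.1 0 := by rw [e2, e1] at h3; linarith
  refine Prod.ext ?_ e2
  ext i
  fin_cases i
  · exact e0
  · exact e1

lemma tr2_zero (K m n : ℤ) : tr2 K m n 0 = 0 := by simp [tr2]

lemma tr2_neg (K m n : ℤ) (w : P2) : tr2 K m n (-w) = -tr2 K m n w := by
  unfold tr2
  refine Prod.ext ?_ (Prod.ext ?_ ?_)
  · show -w.1 1 + K * -w.2 = -(w.1 1 + K * w.2)
    ring
  · rfl
  · show -w.1 0 - m * -w.1 1 - (m * K - n) * -w.2 = -(w.1 0 - m * w.1 1 - (m * K - n) * w.2)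
    ring

/-- Lengths of a chain of best approximation points bound `G` from above. -/
lemma G_le_of_chain2 {N₁ : Seminorm ℝ (Fin 1 → ℝ)} {Θ : Matrix (Fin 1) (Fin 2) ℝ} (hN : IsNorm N)
    (hN₁ : IsNorm N₁) (hΘ : Admissible Θ) {s C : ℝ} (hs : 0 < s) (hC : 0 < C) (b : ℕ → ℝ)
    (hb : ∀ j, b j < b (j + 1)) (hb0 : 0 < b 0) (hbest : ∀ j, b j ∈ Lengths N N₁ Θ)
    (hle : ∀ j, b j ≤ C * s ^ j) : G N N₁ Θ ≤ ENNReal.ofReal s := by
  have hM : ∀ ν, M N N₁ Θ (ν + 1) ≤ b ν := by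
    intro ν
    induction ν with
    | zero =>
      refine (M_succ hN hN₁ hΘ 0).2.2 _ ?_ hb0
      rw [← lengths_eq hN₁ (adm_iff.mp hΘ)]
      exact hbest 0
    | succ ν ih =>
      refine (M_succ hN hN₁ hΘ (ν + 1)).2.2 _ ?_ (lt_of_le_of_lt ih (hb ν))
      rw [← lengths_eq hN₁ (adm_iff.mp hΘ)]
      exact hbest _
  have hM0 : ∀ ν, 0 ≤ M N N₁ Θ ν := by
    intro ν
    induction ν with
    | zero => exact le_rfl
    | succ ν ih => exact ih.trans (M_succ hN hN₁ hΘ ν).2.1.le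
  have hM' : ∀ ν : ℕ, 1 ≤ ν → M N N₁ Θ ν ≤ C / s * s ^ ν := by
    intro ν hν
    obtain ⟨j, rfl⟩ : ∃ j, ν = j + 1 := ⟨ν - 1, by omega⟩
    refine (hM j).trans ((hle j).trans (le_of_eq ?_))
    rw [pow_succ]
    field_simp
  have hC' : 0 < C / s := by positivity
  have hlim : Tendsto (fun ν : ℕ => ENNReal.ofReal ((C / s) ^ (1 / (ν : ℝ)) * s)) atTop
      (𝓝 (ENNReal.ofReal s)) := by
    apply ENNReal.tendsto_ofReal
    have h1 : Tendsto (fun ν : ℕ => (C / s : ℝ) ^ (1 / (ν : ℝ))) atTop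
        (𝓝 ((C / s : ℝ) ^ (0 : ℝ))) := by
      apply Tendsto.rpow tendsto_const_nhds tendsto_one_div_atTop_nhds_zero_nat
      left
      positivity
    rw [Real.rpow_zero] at h1
    simpa using h1.mul_const s
  rw [← hlim.liminf_eq]
  unfold G
  refine liminf_le_liminf ?_
  filter_upwards [eventually_ge_atTop 1] with ν hν
  apply ENNReal.ofReal_le_ofReal
  calc M N N₁ Θ ν ^ (1 / (ν : ℝ)) ≤ (C / s * s ^ ν) ^ (1 / (ν : ℝ)) :=
        Real.rpow_le_rpow (hM0 ν) (hM' ν hν) (by positivity)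
    _ = (C / s) ^ (1 / (ν : ℝ)) * s := by
      rw [Real.mul_rpow (by positivity) (by positivity)]
      congr 1
      rw [one_div, Real.pow_rpow_inv_natCast hs.le (by omega)]

end Pool.Agent.Work.MP_7453a1_nt_two
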